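import Mathlib
import Pool.Agent.Helper669.Forcing
import Pool.Agent.T2H97.EDM.Defs

set_option autoImplicit false

/-!
# The statements about the extension

The set of conditions is `P`. The ordinal `κ` of the ground model is `κ.ord.ToType`. Points of
`2 ^ κ` of the extension are named by maps `y` from `κ` to sets of conditions (the set of all
`β` with `meets (y β)`), functions from `κ` to `κ` by named relations.
-/

namespace Pool.Agent.T2H97.KS

open Cardinal Pool.Agent.Helper669.Forcing

/-- Every directed set of fewer than `κ` conditions has a lower bound. -/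
def DirectedClosed (κ : Cardinal.{0}) (P : Type) [Preorder P] : Prop :=
  ∀ S : Set P, S.Nonempty → #S < κ → (∀ p ∈ S, ∀ q ∈ S, ∃ r ∈ S, r ≤ p ∧ r ≤ q) →
    ∃ m, ∀ p ∈ S, m ≤ p

/-- Every set of pairwise incompatible conditions has cardinality at most `κ`. -/
def ChainCondition (κ : Cardinal.{0}) (P : Type) [Preorder P] : Prop :=
  ∀ A : Set P, (∀ p ∈ A, ∀ q ∈ A, p ≠ q → ¬ ∃ r, r ≤ p ∧ r ≤ q) → #A ≤ κ

/-- The initial ordinal of the cardinal `κ` as a well-ordered type. -/
abbrev Od (κ : Cardinal.{0}) : Type := κ.ord.ToType

section

variable {P : Type} [Preorder P]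

/-- `φ or ψ`. -/
def forr (φ ψ : Set P) : Set P := fnot (fand (fnot φ) (fnot ψ))

/-- `φ iff ψ`. -/
def fiff (φ ψ : Set P) : Set P := fand (fimp φ ψ) (fimp ψ φ)

variable {κ : Cardinal.{0}}

/-- The function `a` is strictly increasing. -/
def StrictInc (a : Od κ → Od κ → Set P) : Set P :=
  fall fun i => fall fun j => fall fun u => fall fun v =>
    fimp (fand (fground (i < j)) (fand (meets (a i u)) (meets (a j v)))) (fground (u < v))

/-- `a ≤* b`: from some index on, `a` is below `b`. -/
def LeStar (a b : Od κ → Od κ → Set P) : Set P :=
  fex fun i₀ : Od κ => fall fun i : Od κ => fall fun u => fall fun v =>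
    fimp (fand (fground (i₀ ≤ i)) (fand (meets (a i u)) (meets (b i v)))) (fground (u ≤ v))

/-- `x` is a scale of length `κ⁺`: each `x ξ` is a strictly increasing function from `κ` to `κ`,
the sequence is increasing with respect to `≤*`, and no function from `κ` to `κ` bounds it. -/
def IsScale (x : Od (Order.succ κ) → Od κ → Od κ → Set P) : Set P :=
  fand (fall fun ξ => fand (IsFun (x ξ)) (StrictInc (x ξ)))
    (fand (fall fun ξ => fall fun η => fimp (fground (ξ < η)) (LeStar (x ξ) (x η)))
      (fall fun b : Od κ → Od κ → Set P => fimp (IsFun b) (fex fun ξ => fnot (LeStar (x ξ) b))))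

/-- The point `y` and the ground model set `s` have the same elements below `δ`. -/
def Agree (y : Od κ → Set P) (δ : Od κ) (s : Set (Od κ)) : Set P :=
  fall fun β : Od κ => fimp (fground (β < δ)) (fiff (meets (y β)) (fground (β ∈ s)))

/-- `y` belongs to the closed set of all points which for every `δ` agree below `δ` with some
`s` such that `(δ, s)` is in `T`. -/
def InClosed (T : Od κ → Set (Od κ) → Set P) (y : Od κ → Set P) : Set P :=
  fall fun δ => fex fun s => fand (meets (T δ s)) (Agree y δ s)

/-- `y` belongs to the union of the basic open sets given by the members `(δ, s)` of `U`: the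
sets of all points which agree with `s` below `δ`. -/
def InOpen (U : Od κ → Set (Od κ) → Set P) (y : Od κ → Set P) : Set P :=
  fex fun δ => fex fun s => fand (meets (U δ s)) (Agree y δ s)

/-- The closed set given by `T` is `κ`-compact: if it is covered by the basic open sets given by
`U`, then it is covered by fewer than `κ` of them. -/
def KCompact (T : Od κ → Set (Od κ) → Set P) : Set P :=
  fall fun U : Od κ → Set (Od κ) → Set P =>
    fimp (fall fun y => fimp (InClosed T y) (InOpen U y))
      (fex fun W : {W : Set (Od κ × Set (Od κ)) // #W < κ} =>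
        fand (fall fun w : W.1 => meets (U w.1.1 w.1.2))
          (fall fun y => fimp (InClosed T y) (fex fun w : W.1 => Agree y w.1.1 w.1.2)))

/-- The point `y` is a bounded subset of `κ`. -/
def Bdd (y : Od κ → Set P) : Set P :=
  fex fun δ : Od κ => fall fun β : Od κ => fimp (meets (y β)) (fground (β < δ))

/-- The point `y` is the range of the function `a`. -/
def IsRange (a : Od κ → Od κ → Set P) (y : Od κ → Set P) : Set P :=
  fall fun β => fiff (meets (y β)) (fex fun i => meets (a i β))

/-- The set of all `y` which are ranges of some `x ξ` or bounded subsets of `κ` is the union of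
`κ` many `κ`-compact sets. -/
def IsKKappa (x : Od (Order.succ κ) → Od κ → Od κ → Set P) : Set P :=
  fex fun T : Od κ → Od κ → Set (Od κ) → Set P =>
    fand (fall fun i => KCompact (T i))
      (fall fun y => fiff (fex fun i => InClosed (T i) y)
        (forr (fex fun ξ => IsRange (x ξ) y) (Bdd y)))

end

section

variable (κ : Cardinal.{0}) (P : Type) [Preorder P]

/-- In the extension, `κ` is regular: no function from a smaller cardinal to `κ` has unbounded
range. -/
def StaysRegular : Set P :=
  fall fun μ : Cardinal.{0} => fall fun _ : μ < κ =>
    fnot (fex fun R : μ.out → Od κ → Set P =>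
      fand (IsFun R) (fall fun z : Od κ => fex fun i => fex fun y : Od κ =>
        fand (fground (z ≤ y)) (meets (R i y))))

/-- In the extension `𝔟_κ > κ`: for any `κ`-sequence of functions from `κ` to `κ` some strictly
increasing function bounds all of them. -/
def BoundingGt : Set P :=
  fall fun F : Od κ → Od κ → Od κ → Set P => fimp (fall fun j => IsFun (F j))
    (fex fun b : Od κ → Od κ → Set P => fand (IsFun b) (fand (StrictInc b)
      (fall fun j => LeStar (F j) b)))

/-- In the extension there is a scale of length `κ⁺` such that the set of the ranges of its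
members together with all bounded subsets of `κ` is a union of `κ` many `κ`-compact sets. -/
def HasKKappaScale : Set P :=
  fex fun x : Od (Order.succ κ) → Od κ → Od κ → Set P => fand (IsScale x) (IsKKappa x)

/-- In the extension the space `2 ^ κ` is `κ`-compact. -/
def TwoPowCompact : Set P :=
  fall fun U : Od κ → Set (Od κ) → Set P => fimp (fall fun y => InOpen U y)
    (fex fun W : {W : Set (Od κ × Set (Od κ)) // #W < κ} =>
      fand (fall fun w : W.1 => meets (U w.1.1 w.1.2))
        (fall fun y => fex fun w : W.1 => Agree y w.1.1 w.1.2))

end

end Pool.Agent.T2H97.KS
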