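import Mathlib
import Pool.Agent.Helper669.KDelta
import Pool.Agent.T2H97.KS.Defs

set_option autoImplicit false

/-!
# Cardinal arithmetic at a cardinal `κ` with `κ ^ μ ≤ κ` for all `μ < κ`
-/

namespace Pool.Agent.T2H97.KS

open Cardinal Set Pool.Agent.Helper669.KDelta

theorem mk_Od (κ : Cardinal.{0}) : #(Od κ) = κ := mk_ord_toType κ

theorem mk_Iio_lt {κ : Cardinal.{0}} (i : Od κ) : #(Iio i) < κ := mk_Iio_toType_ord_lt i

theorem isRegular_of_pow {κ : Cardinal.{0}} (hκ : ℵ₀ ≤ κ) (hpow : ∀ μ < κ, κ ^ μ ≤ κ) :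
    κ.IsRegular := by
  refine ⟨hκ, ?_⟩
  by_contra hcon
  rw [not_le] at hcon
  exact absurd (lt_power_cof_ord hκ) (not_lt.2 (hpow _ hcon))

section

variable {κ : Cardinal.{0}}

theorem exists_bound (hreg : κ.IsRegular) (S : Set (Od κ)) (hS : #S < κ) :
    ∃ z, ∀ x ∈ S, x < z := by
  by_contra hcon
  push Not at hcon
  have hcof : IsCofinal S := fun z => by
    obtain ⟨n, hn, hn'⟩ := hcon z
    exact ⟨n, hn, hn'⟩
  have h1 := Order.cof_le hcof
  rw [Ordinal.cof_toType, hreg.cof_ord] at h1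
  exact absurd h1 (not_le.2 hS)

theorem exists_bound_range (hreg : κ.IsRegular) {ι : Type} (hι : #ι < κ) (f : ι → Od κ) :
    ∃ z, ∀ i, f i < z := by
  obtain ⟨z, hz⟩ := exists_bound hreg (range f) (mk_range_le.trans_lt hι)
  exact ⟨z, fun i => hz _ ⟨i, rfl⟩⟩

theorem exists_gt (hreg : κ.IsRegular) (i : Od κ) : ∃ j, i < j := by
  obtain ⟨z, hz⟩ := exists_bound hreg {i} (by simpa using hreg.nat_lt 1)
  exact ⟨z, hz i rfl⟩

theorem exists_gt₂ (hreg : κ.IsRegular) (i j : Od κ) : ∃ k, i < k ∧ j < k := by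
  obtain ⟨z, hz⟩ := exists_gt hreg (max i j)
  exact ⟨z, (le_max_left _ _).trans_lt hz, (le_max_right _ _).trans_lt hz⟩

/-- unions of few small sets are small -/
theorem lt_iUnion (hreg : κ.IsRegular) {ι α : Type} (hι : #ι < κ) (f : ι → Set α)
    (hf : ∀ i, #(f i) < κ) : #(⋃ i, f i) < κ := by
  refine (mk_iUnion_le_sum_mk).trans_lt ?_
  exact sum_lt_of_isRegular hreg hι hf

theorem lt_biUnion (hreg : κ.IsRegular) {ι α : Type} (s : Set ι) (hs : #s < κ) (f : ι → Set α)
    (hf : ∀ i ∈ s, #(f i) < κ) : #(⋃ i ∈ s, f i) < κ := by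
  rw [biUnion_eq_iUnion]
  exact lt_iUnion hreg hs _ (fun i => hf i.1 i.2)

theorem lt_union (hreg : κ.IsRegular) {α : Type} {s t : Set α} (hs : #s < κ) (ht : #t < κ) :
    #(s ∪ t : Set α) < κ :=
  (mk_union_le s t).trans_lt (add_lt_of_lt hreg.aleph0_le hs ht)

theorem lt_mono {α : Type} {s t : Set α} (h : s ⊆ t) (ht : #t < κ) : #s < κ :=
  (mk_le_mk_of_subset h).trans_lt ht

theorem lt_image {α β : Type} {s : Set α} (f : α → β) (hs : #s < κ) : #(f '' s) < κ :=
  mk_image_le.trans_lt hs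

theorem lt_insert (hreg : κ.IsRegular) {α : Type} {s : Set α} (a : α) (hs : #s < κ) :
    #(insert a s : Set α) < κ := by
  rw [insert_eq]
  exact lt_union hreg (by simpa using hreg.nat_lt 1) hs

theorem mk_Iic_lt (hreg : κ.IsRegular) (i : Od κ) : #(Iic i) < κ := by
  rw [← Iio_insert]
  exact lt_insert hreg i (mk_Iio_lt i)

/-- the number of small subsets of a set of size at most `κ` -/
theorem mk_small_subsets (hκ : ℵ₀ ≤ κ) (hpow : ∀ μ < κ, κ ^ μ ≤ κ) {Z : Type} (hZ : #Z ≤ κ) :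
    #{S : Set Z | #S < κ} ≤ κ := by
  have hreg := isRegular_of_pow hκ hpow
  have h1 : {S : Set Z | #S < κ} ⊆ {∅} ∪ ⋃ i : Od κ, range fun f : Iio i → Z => range f := by
    intro S hS
    rcases S.eq_empty_or_nonempty with h | h
    · exact Or.inl h
    refine Or.inr (mem_iUnion.2 ?_)
    have hS' : #S < #(Od κ) := by rwa [mk_Od]
    obtain ⟨g⟩ := hS'.le
    obtain ⟨i, hi⟩ := exists_bound_range hreg hS g
    have : Nonempty S := h.to_subtype
    let f : Iio i → Z := fun x => ((Function.invFun g x.1 : S) : Z)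
    refine ⟨i, f, ?_⟩
    ext z
    constructor
    · rintro ⟨x, rfl⟩
      exact (Function.invFun g x.1 : S).2
    · intro hz
      refine ⟨⟨g ⟨z, hz⟩, hi _⟩, ?_⟩
      change ((Function.invFun g (g ⟨z, hz⟩) : S) : Z) = z
      rw [Function.leftInverse_invFun g.injective]
  refine (mk_le_mk_of_subset h1).trans ?_
  refine small_union hκ (small_singleton hκ _) ?_
  refine small_iUnion hκ (mk_Od κ).le _ fun i => ?_
  refine mk_range_le.trans ?_
  rw [mk_pi, prod_const, lift_id, lift_id]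
  exact (power_le_power_right hZ).trans (hpow _ (mk_Iio_lt i))

end

end Pool.Agent.T2H97.KS
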