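import Mathlib
import Pool.Agent.T2H97.KS.Basic

set_option autoImplicit false

/-!
# The forcing notion

A condition consists of a tree of bounded subsets of `κ` of height `ht + 1` with small levels and
of a small partial function `f` from `κ⁺` to the top level, such that each node of the top level
is the value of `f` or bounded strictly below `ht`. In a stronger condition the tree grows, the
values of `f` grow, and for `ξ < η` in the old domain the new points of `f η` are in `f ξ`.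
-/

namespace Pool.Agent.T2H97.KS

open Cardinal Set

/-- The conditions. -/
structure Cond (κ : Cardinal.{0}) where
  /-- the height of the tree -/
  ht : Od κ
  /-- the levels of the tree -/
  lev : Od κ → Set (Set (Od κ))
  /-- the domain of `f` -/
  D : Set (Od (Order.succ κ))
  /-- the approximations of the elements of the scale -/
  f : Od (Order.succ κ) → Set (Od κ)
  lev_sub : ∀ β, ∀ s ∈ lev β, s ⊆ Iio β
  lev_out : ∀ β, ht < β → lev β = ∅
  lev_coh : ∀ β γ, γ ≤ β → ∀ s ∈ lev β, s ∩ Iio γ ∈ lev γ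
  lev_ext : ∀ γ β, γ ≤ β → β ≤ ht → ∀ s ∈ lev γ, s ∈ lev β
  lev_empty : ∀ β ≤ ht, ∅ ∈ lev β
  f_top : ∀ ξ ∈ D, f ξ ∈ lev ht
  f_out : ∀ ξ ∉ D, f ξ = ∅
  top : ∀ s ∈ lev ht, s.Nonempty → (∀ γ < ht, ∃ x ∈ s, γ ≤ x) → ∃ ξ ∈ D, f ξ = s
  small_D : #D < κ
  small_lev : ∀ β, #(lev β) < κ

namespace Cond

variable {κ : Cardinal.{0}}

/-- `q` properly extends `p`. -/
structure Ext (q p : Cond κ) : Prop where
  ht : p.ht < q.ht
  lev : ∀ β ≤ p.ht, q.lev β = p.lev β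
  D : p.D ⊆ q.D
  f : ∀ ξ ∈ p.D, q.f ξ ∩ Iio p.ht = p.f ξ
  tower : ∀ ξ ∈ p.D, ∀ η ∈ p.D, ξ < η → ∀ x ∈ q.f η, p.ht ≤ x → x ∈ q.f ξ

theorem f_sub (p : Cond κ) (ξ : Od (Order.succ κ)) : p.f ξ ⊆ Iio p.ht := by
  by_cases h : ξ ∈ p.D
  · exact p.lev_sub _ _ (p.f_top ξ h)
  · rw [p.f_out ξ h]
    exact empty_subset _

theorem Ext.trans {r q p : Cond κ} (h : Ext r q) (h' : Ext q p) : Ext r p where
  ht := h'.ht.trans h.ht
  lev β hβ := (h.lev β (hβ.trans h'.ht.le)).trans (h'.lev β hβ)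
  D := h'.D.trans h.D
  f ξ hξ := by
    rw [← h'.f ξ hξ, ← h.f ξ (h'.D hξ), inter_assoc]
    congr 1
    rw [inter_eq_right.2 (Iio_subset_Iio h'.ht.le)]
  tower ξ hξ η hη hlt x hx hle := by
    rcases lt_or_ge x q.ht with h1 | h1
    · have h2 : x ∈ q.f η := by
        rw [← h.f η (h'.D hη)]
        exact ⟨hx, h1⟩
      have h3 := h'.tower ξ hξ η hη hlt x h2 hle
      rw [← h.f ξ (h'.D hξ)] at h3
      exact h3.1
    · exact h.tower ξ (h'.D hξ) η (h'.D hη) hlt x hx h1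

instance : Preorder (Cond κ) where
  le q p := q = p ∨ Ext q p
  le_refl p := Or.inl rfl
  le_trans r q p h h' := by
    rcases h with rfl | h
    · exact h'
    · rcases h' with rfl | h'
      · exact Or.inr h
      · exact Or.inr (h.trans h')

theorem le_def {q p : Cond κ} : q ≤ p ↔ q = p ∨ Ext q p := Iff.rfl

theorem le_ht {q p : Cond κ} (h : q ≤ p) : p.ht ≤ q.ht := by
  rcases h with rfl | h
  · exact le_rfl
  · exact h.ht.le

theorem le_lev {q p : Cond κ} (h : q ≤ p) {β : Od κ} (hβ : β ≤ p.ht) : q.lev β = p.lev β := by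
  rcases h with rfl | h
  · rfl
  · exact h.lev β hβ

theorem le_D {q p : Cond κ} (h : q ≤ p) : p.D ⊆ q.D := by
  rcases h with rfl | h
  · exact subset_rfl
  · exact h.D

theorem le_f {q p : Cond κ} (h : q ≤ p) {ξ : Od (Order.succ κ)} (hξ : ξ ∈ p.D) :
    q.f ξ ∩ Iio p.ht = p.f ξ := by
  rcases h with rfl | h
  · exact inter_eq_left.2 (f_sub _ _)
  · exact h.f ξ hξ

theorem le_tower {q p : Cond κ} (h : q ≤ p) {ξ η : Od (Order.succ κ)} (hξ : ξ ∈ p.D)
    (hη : η ∈ p.D) (hlt : ξ < η) {x : Od κ} (hx : x ∈ q.f η) (hle : p.ht ≤ x) : x ∈ q.f ξ := by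
  rcases h with rfl | h
  · exact absurd (f_sub _ _ hx) (not_lt.2 hle)
  · exact h.tower ξ hξ η hη hlt x hx hle

theorem ht_of_mem {p : Cond κ} {β : Od κ} {s : Set (Od κ)} (h : s ∈ p.lev β) : β ≤ p.ht := by
  by_contra hcon
  rw [p.lev_out β (not_le.1 hcon)] at h
  exact h

/-- Every directed set of fewer than `κ` conditions has a lower bound. -/
theorem exists_lb (hreg : κ.IsRegular) (S : Set (Cond κ)) (hne : S.Nonempty)
    (hdir : ∀ p ∈ S, ∀ q ∈ S, ∃ r ∈ S, r ≤ p ∧ r ≤ q) (hcard : #S < κ) :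
    ∃ m : Cond κ, (∀ p ∈ S, m ≤ p) ∧
      ∀ s ∈ m.lev m.ht, (∃ p ∈ S, s ∈ p.lev p.ht) ∨ ∃ p ∈ S, ∃ ξ ∈ p.D, m.f ξ = s := by
  classical
  obtain ⟨z, hz⟩ := exists_bound hreg (Cond.ht '' S) (lt_image _ hcard)
  have hne' : {z : Od κ | ∀ p ∈ S, p.ht < z}.Nonempty := ⟨z, fun p hp => hz _ ⟨p, hp, rfl⟩⟩
  obtain ⟨α, hα, hmin⟩ : ∃ α, (∀ p ∈ S, p.ht < α) ∧ ∀ γ < α, ∃ p ∈ S, γ ≤ p.ht := by
    refine ⟨wellFounded_lt.min _ hne', wellFounded_lt.min_mem _ hne', fun γ hγ => ?_⟩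
    by_contra hcon
    push Not at hcon
    exact wellFounded_lt.not_lt_min {z : Od κ | ∀ p ∈ S, p.ht < z} hcon hγ
  let fm : Od (Order.succ κ) → Set (Od κ) := fun ξ => ⋃ p ∈ S, p.f ξ
  let L : Od κ → Set (Set (Od κ)) := fun β =>
    {s | (β < α ∧ ∃ p ∈ S, s ∈ p.lev β) ∨
      (β = α ∧ ((∃ p ∈ S, s ∈ p.lev p.ht) ∨ ∃ p ∈ S, ∃ ξ ∈ p.D, fm ξ = s))}
  have A1 : ∀ p ∈ S, ∀ ξ ∈ p.D, fm ξ ∩ Iio p.ht = p.f ξ := by
    intro p hp ξ hξ
    ext x
    constructor
    · rintro ⟨hx, hx'⟩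
      simp only [fm, mem_iUnion] at hx
      obtain ⟨p', hp', hx⟩ := hx
      have hξ' : ξ ∈ p'.D := by
        by_contra hcon
        rw [p'.f_out ξ hcon] at hx
        exact hx
      obtain ⟨r, hr, hr1, hr2⟩ := hdir p hp p' hp'
      rw [← le_f hr2 hξ'] at hx
      rw [← le_f hr1 hξ]
      exact ⟨hx.1, hx'⟩
    · intro hx
      refine ⟨?_, f_sub _ _ hx⟩
      simp only [fm, mem_iUnion]
      exact ⟨p, hp, hx⟩
  have A3 : ∀ p ∈ S, ∀ p' ∈ S, ∀ β γ, β ≤ γ → γ ≤ p'.ht → ∀ s ∈ p.lev β, s ∈ p'.lev γ := by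
    intro p hp p' hp' β γ hβ hγ s hs
    obtain ⟨r, hr, hr1, hr2⟩ := hdir p hp p' hp'
    have h1 : s ∈ p'.lev β := by
      rw [← le_lev hr2 (hβ.trans hγ), le_lev hr1 (ht_of_mem hs)]
      exact hs
    exact p'.lev_ext _ _ hβ hγ s h1
  have hfmsub : ∀ ξ, fm ξ ⊆ Iio α := by
    intro ξ x hx
    simp only [fm, mem_iUnion] at hx
    obtain ⟨p', hp', hx⟩ := hx
    exact lt_trans (f_sub _ _ hx) (hα p' hp')
  have hDsmall : #(⋃ p ∈ S, p.D : Set (Od (Order.succ κ))) < κ :=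
    lt_biUnion hreg _ hcard _ fun p _ => p.small_D
  let m : Cond κ :=
    { ht := α
      lev := L
      D := ⋃ p ∈ S, p.D
      f := fm
      lev_sub := by
        rintro β s (⟨_, p, hp, hs⟩ | ⟨rfl, (⟨p, hp, hs⟩ | ⟨p, hp, ξ, hξ, rfl⟩)⟩)
        · exact p.lev_sub _ _ hs
        · exact (p.lev_sub _ _ hs).trans (Iio_subset_Iio (hα p hp).le)
        · exact hfmsub ξ
      lev_out := by
        intro β hβ
        ext s
        simp only [mem_empty_iff_false, iff_false]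
        rintro (⟨h, _⟩ | ⟨h, _⟩)
        · exact absurd h (not_lt.2 hβ.le)
        · exact absurd h hβ.ne'
      lev_coh := by
        rintro β γ hγ s (⟨hβ, p, hp, hs⟩ | ⟨rfl, (⟨p, hp, hs⟩ | ⟨p, hp, ξ, hξ, rfl⟩)⟩)
        · exact Or.inl ⟨hγ.trans_lt hβ, p, hp, p.lev_coh _ _ hγ s hs⟩
        · rcases hγ.eq_or_lt with rfl | hγ
          · right
            refine ⟨rfl, Or.inl ⟨p, hp, ?_⟩⟩
            rw [inter_eq_left.2 ((p.lev_sub _ _ hs).trans (Iio_subset_Iio (hα p hp).le))]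
            exact hs
          · left
            refine ⟨hγ, ?_⟩
            rcases le_or_gt γ p.ht with h | h
            · exact ⟨p, hp, p.lev_coh _ _ h s hs⟩
            · obtain ⟨p', hp', h'⟩ := hmin γ hγ
              refine ⟨p', hp', ?_⟩
              rw [inter_eq_left.2 ((p.lev_sub _ _ hs).trans (Iio_subset_Iio h.le))]
              exact A3 p hp p' hp' _ _ h.le h' s hs
        · rcases hγ.eq_or_lt with rfl | hγ
          · right
            refine ⟨rfl, Or.inr ⟨p, hp, ξ, hξ, ?_⟩⟩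
            rw [inter_eq_left.2 (hfmsub ξ)]
          · left
            refine ⟨hγ, ?_⟩
            obtain ⟨p', hp', h'⟩ := hmin γ hγ
            obtain ⟨r, hr, hr1, hr2⟩ := hdir p hp p' hp'
            refine ⟨r, hr, ?_⟩
            have h1 : γ ≤ r.ht := h'.trans (le_ht hr2)
            have h2 : fm ξ ∩ Iio γ = r.f ξ ∩ Iio γ := by
              rw [← A1 r hr ξ (le_D hr1 hξ), inter_assoc]
              congr 1
              rw [inter_eq_right.2 (Iio_subset_Iio h1)]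
            rw [h2]
            exact r.lev_coh _ _ h1 _ (r.f_top ξ (le_D hr1 hξ))
      lev_ext := by
        rintro γ β hγ hβ s hs
        rcases hγ.eq_or_lt with rfl | hγ'
        · exact hs
        rcases hs with (⟨_, p, hp, hs⟩ | ⟨rfl, _⟩)
        · rcases hβ.eq_or_lt with rfl | hβ
          · exact Or.inr ⟨rfl, Or.inl ⟨p, hp, p.lev_ext _ _ (ht_of_mem hs) le_rfl s hs⟩⟩
          · obtain ⟨p', hp', h'⟩ := hmin β hβ
            exact Or.inl ⟨hβ, p', hp', A3 p hp p' hp' _ _ hγ h' s hs⟩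
        · exact absurd hγ' (not_lt.2 hβ)
      lev_empty := by
        intro β hβ
        rcases hβ.eq_or_lt with rfl | hβ
        · obtain ⟨p, hp⟩ := hne
          exact Or.inr ⟨rfl, Or.inl ⟨p, hp, p.lev_empty _ le_rfl⟩⟩
        · obtain ⟨p', hp', h'⟩ := hmin β hβ
          exact Or.inl ⟨hβ, p', hp', p'.lev_empty _ h'⟩
      f_top := by
        intro ξ hξ
        simp only [mem_iUnion] at hξ
        obtain ⟨p, hp, hξ⟩ := hξ
        exact Or.inr ⟨rfl, Or.inr ⟨p, hp, ξ, hξ, rfl⟩⟩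
      f_out := by
        intro ξ hξ
        simp only [mem_iUnion, not_exists] at hξ
        simp only [fm, iUnion_eq_empty]
        exact fun p hp => p.f_out ξ (hξ p hp)
      top := by
        rintro s hs _ hunb
        rcases hs with (⟨h, _⟩ | ⟨_, (⟨p, hp, hs⟩ | ⟨p, hp, ξ, hξ, rfl⟩)⟩)
        · exact absurd h (lt_irrefl _)
        · obtain ⟨x, hx, hx'⟩ := hunb p.ht (hα p hp)
          exact absurd (p.lev_sub _ _ hs hx) (not_lt.2 hx')
        · refine ⟨ξ, ?_, rfl⟩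
          simp only [mem_iUnion]
          exact ⟨p, hp, hξ⟩
      small_D := hDsmall
      small_lev := by
        intro β
        have h1 : L β ⊆ (⋃ p ∈ S, p.lev β) ∪ ((⋃ p ∈ S, p.lev p.ht) ∪
            fm '' (⋃ p ∈ S, p.D)) := by
          rintro s (⟨_, p, hp, hs⟩ | ⟨_, (⟨p, hp, hs⟩ | ⟨p, hp, ξ, hξ, rfl⟩)⟩)
          · left
            simp only [mem_iUnion]
            exact ⟨p, hp, hs⟩
          · right
            left
            simp only [mem_iUnion]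
            exact ⟨p, hp, hs⟩
          · right
            right
            refine ⟨ξ, ?_, rfl⟩
            simp only [mem_iUnion]
            exact ⟨p, hp, hξ⟩
        refine lt_mono h1 (lt_union hreg ?_ (lt_union hreg ?_ (lt_image _ hDsmall)))
        · exact lt_biUnion hreg _ hcard _ fun p _ => p.small_lev _
        · exact lt_biUnion hreg _ hcard _ fun p _ => p.small_lev _ }
  refine ⟨m, fun p hp => Or.inr ⟨hα p hp, fun β hβ => ?_, ?_, A1 p hp, ?_⟩, ?_⟩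
  · ext s
    constructor
    · rintro (⟨_, p', hp', hs⟩ | ⟨rfl, _⟩)
      · exact A3 p' hp' p hp _ _ le_rfl hβ s hs
      · exact absurd (hα p hp) (not_lt.2 hβ)
    · intro hs
      exact Or.inl ⟨hβ.trans_lt (hα p hp), p, hp, hs⟩
  · intro ξ hξ
    change ξ ∈ ⋃ p ∈ S, p.D
    simp only [mem_iUnion]
    exact ⟨p, hp, hξ⟩
  · intro ξ hξ η hη hlt x hx hle
    change x ∈ fm η at hx
    change x ∈ fm ξ
    simp only [fm, mem_iUnion] at hx
    obtain ⟨p', hp', hx⟩ := hx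
    have hη' : η ∈ p'.D := by
      by_contra hcon
      rw [p'.f_out η hcon] at hx
      exact hx
    obtain ⟨r, hr, hr1, hr2⟩ := hdir p hp p' hp'
    rw [← le_f hr2 hη'] at hx
    have h1 := le_tower hr1 hξ hη hlt hx.1 hle
    simp only [fm, mem_iUnion]
    exact ⟨r, hr, h1⟩
  · intro s hs
    rcases hs with (⟨h, _⟩ | ⟨_, h⟩)
    · exact absurd h (lt_irrefl _)
    · exact h

/-- One step extensions. -/
theorem exists_extend (hreg : κ.IsRegular) (p : Cond κ) (α : Od κ) (hα : p.ht < α)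
    (D : Set (Od (Order.succ κ))) (hD : p.D ⊆ D) (hDs : #D < κ)
    (g : Od (Order.succ κ) → Set (Od κ)) (hg1 : ∀ ξ ∈ D, g ξ ⊆ Iio α)
    (hg2 : ∀ ξ ∈ p.D, g ξ ∩ Iio p.ht = p.f ξ) (hg3 : ∀ ξ ∈ D, g ξ ∩ Iio p.ht ∈ p.lev p.ht)
    (hg4 : ∀ ξ ∈ p.D, ∀ η ∈ p.D, ξ < η → ∀ x ∈ g η, p.ht ≤ x → x ∈ g ξ) :
    ∃ q : Cond κ, Ext q p ∧ q.ht = α ∧ q.D = D ∧ ∀ ξ ∈ D, q.f ξ = g ξ := by
  classical
  have hsub : ∀ ξ ∈ D, ∀ γ ≤ p.ht, g ξ ∩ Iio γ ∈ p.lev γ := by
    intro ξ hξ γ hγ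
    have := p.lev_coh _ _ hγ _ (hg3 ξ hξ)
    rwa [inter_assoc, inter_eq_right.2 (Iio_subset_Iio hγ)] at this
  let L : Od κ → Set (Set (Od κ)) := fun β =>
    {s | (β ≤ p.ht ∧ s ∈ p.lev β) ∨ (p.ht < β ∧ β ≤ α ∧
      (s ∈ p.lev p.ht ∨ ∃ ξ ∈ D, ∃ γ, γ ≤ β ∧ g ξ ∩ Iio γ = s))}
  let q : Cond κ :=
    { ht := α
      lev := L
      D := D
      f := fun ξ => if ξ ∈ D then g ξ else ∅
      lev_sub := by
        rintro β s (⟨_, hs⟩ | ⟨hβ, hβ', (hs | ⟨ξ, hξ, γ, hγ, rfl⟩)⟩)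
        · exact p.lev_sub _ _ hs
        · exact (p.lev_sub _ _ hs).trans (Iio_subset_Iio hβ.le)
        · exact inter_subset_right.trans (Iio_subset_Iio hγ)
      lev_out := by
        intro β hβ
        ext s
        simp only [mem_empty_iff_false, iff_false]
        rintro (⟨h, _⟩ | ⟨_, h, _⟩)
        · exact absurd (h.trans hα.le) (not_le.2 hβ)
        · exact absurd h (not_le.2 hβ)
      lev_coh := by
        rintro β γ hγ s (⟨hβ, hs⟩ | ⟨hβ, hβ', (hs | ⟨ξ, hξ, δ, hδ, rfl⟩)⟩)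
        · exact Or.inl ⟨hγ.trans hβ, p.lev_coh _ _ hγ s hs⟩
        · rcases le_or_gt γ p.ht with h | h
          · exact Or.inl ⟨h, p.lev_coh _ _ h s hs⟩
          · refine Or.inr ⟨h, hγ.trans hβ', Or.inl ?_⟩
            rw [inter_eq_left.2 ((p.lev_sub _ _ hs).trans (Iio_subset_Iio h.le))]
            exact hs
        · have h1 : g ξ ∩ Iio δ ∩ Iio γ = g ξ ∩ Iio (min δ γ) := by
            rw [inter_assoc, Iio_inter_Iio]
          rw [h1]
          rcases le_or_gt γ p.ht with h | h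
          · refine Or.inl ⟨h, ?_⟩
            have h2 : min δ γ ≤ p.ht := (min_le_right _ _).trans h
            exact p.lev_ext _ _ (min_le_right _ _) h _ (hsub ξ hξ _ h2)
          · exact Or.inr ⟨h, hγ.trans hβ', Or.inr ⟨ξ, hξ, min δ γ, min_le_right _ _, rfl⟩⟩
      lev_ext := by
        rintro γ β hγ hβ s (⟨hγ', hs⟩ | ⟨hγ', _, h⟩)
        · rcases le_or_gt β p.ht with h | h
          · exact Or.inl ⟨h, p.lev_ext _ _ hγ h s hs⟩
          · exact Or.inr ⟨h, hβ, Or.inl (p.lev_ext _ _ hγ' le_rfl s hs)⟩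
        · refine Or.inr ⟨hγ'.trans_le hγ, hβ, ?_⟩
          rcases h with h | ⟨ξ, hξ, δ, hδ, rfl⟩
          · exact Or.inl h
          · exact Or.inr ⟨ξ, hξ, δ, hδ.trans hγ, rfl⟩
      lev_empty := by
        intro β hβ
        rcases le_or_gt β p.ht with h | h
        · exact Or.inl ⟨h, p.lev_empty _ h⟩
        · exact Or.inr ⟨h, hβ, Or.inl (p.lev_empty _ le_rfl)⟩
      f_top := by
        intro ξ hξ
        refine Or.inr ⟨hα, le_rfl, Or.inr ⟨ξ, hξ, α, le_rfl, ?_⟩⟩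
        rw [if_pos hξ, inter_eq_left.2 (hg1 ξ hξ)]
      f_out := fun ξ hξ => if_neg hξ
      top := by
        rintro s hs hne hunb
        rcases hs with (⟨h, _⟩ | ⟨_, _, (hs | ⟨ξ, hξ, γ, hγ, rfl⟩)⟩)
        · exact absurd hα (not_lt.2 h)
        · obtain ⟨x, hx, hx'⟩ := hunb p.ht hα
          exact absurd (p.lev_sub _ _ hs hx) (not_lt.2 hx')
        · rcases hγ.eq_or_lt with rfl | hγ
          · exact ⟨ξ, hξ, by rw [if_pos hξ, inter_eq_left.2 (hg1 ξ hξ)]⟩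
          · obtain ⟨x, hx, hx'⟩ := hunb γ hγ
            exact absurd hx.2 (not_lt.2 hx')
      small_D := hDs
      small_lev := by
        intro β
        have h1 : L β ⊆ p.lev β ∪ (p.lev p.ht ∪ ⋃ γ ∈ Iic β, (fun ξ => g ξ ∩ Iio γ) '' D) := by
          rintro s (⟨_, hs⟩ | ⟨_, _, (hs | ⟨ξ, hξ, γ, hγ, rfl⟩)⟩)
          · exact Or.inl hs
          · exact Or.inr (Or.inl hs)
          · refine Or.inr (Or.inr ?_)
            simp only [mem_iUnion]
            exact ⟨γ, hγ, ξ, hξ, rfl⟩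
        refine lt_mono h1 (lt_union hreg (p.small_lev _) (lt_union hreg (p.small_lev _) ?_))
        exact lt_biUnion hreg _ (mk_Iic_lt hreg β) _ fun γ _ => lt_image _ hDs }
  refine ⟨q, ⟨hα, ?_, hD, ?_, ?_⟩, rfl, rfl, fun ξ hξ => if_pos hξ⟩
  · intro β hβ
    ext s
    constructor
    · rintro (⟨_, hs⟩ | ⟨h, _⟩)
      · exact hs
      · exact absurd h (not_lt.2 hβ)
    · exact fun hs => Or.inl ⟨hβ, hs⟩
  · intro ξ hξ
    change (if ξ ∈ D then g ξ else ∅) ∩ Iio p.ht = p.f ξ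
    rw [if_pos (hD hξ)]
    exact hg2 ξ hξ
  · intro ξ hξ η hη hlt x hx hle
    change x ∈ (if η ∈ D then g η else ∅) at hx
    change x ∈ (if ξ ∈ D then g ξ else ∅)
    rw [if_pos (hD hη)] at hx
    rw [if_pos (hD hξ)]
    exact hg4 ξ hξ η hη hlt x hx hle

/-- Amalgamation. -/
theorem exists_amalgam (hreg : κ.IsRegular) (s r : Cond κ) (α : Od κ) (hα : s.ht < α)
    (hht : r.ht ≤ s.ht) (hlev : ∀ β ≤ r.ht, s.lev β = r.lev β)
    (hf : ∀ ξ ∈ r.D, ξ ∈ s.D → s.f ξ ∩ Iio r.ht = r.f ξ)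
    (htow : ∀ ξ ∈ r.D, ∀ η ∈ r.D, η ∈ s.D → ξ < η → ∀ x ∈ s.f η, r.ht ≤ x →
      ξ ∈ s.D ∧ x ∈ s.f ξ) :
    ∃ m : Cond κ, Ext m s ∧ Ext m r ∧ m.ht = α ∧ ∀ ξ ∈ r.D, ξ ∉ s.D → m.f ξ = r.f ξ := by
  classical
  obtain ⟨m, hm, hm1, hm2, hm3⟩ := exists_extend hreg s α hα (s.D ∪ r.D) subset_union_left
    (lt_union hreg s.small_D r.small_D) (fun ξ => if ξ ∈ s.D then s.f ξ else r.f ξ)
    (by
      intro ξ _
      split_ifs with h
      · exact (f_sub _ _).trans (Iio_subset_Iio hα.le)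
      · exact (f_sub _ _).trans (Iio_subset_Iio (hht.trans hα.le)))
    (by
      intro ξ hξ
      rw [if_pos hξ, inter_eq_left.2 (f_sub _ _)])
    (by
      intro ξ hξ
      split_ifs with h
      · rw [inter_eq_left.2 (f_sub _ _)]
        exact s.f_top ξ h
      · have hr : ξ ∈ r.D := hξ.resolve_left h
        rw [inter_eq_left.2 ((f_sub _ _).trans (Iio_subset_Iio hht))]
        refine s.lev_ext _ _ hht le_rfl _ ?_
        rw [hlev _ le_rfl]
        exact r.f_top ξ hr)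
    (by
      intro ξ hξ η hη hlt x hx hle
      rw [if_pos hη] at hx
      exact absurd (f_sub _ _ hx) (not_lt.2 hle))
  refine ⟨m, hm, ⟨?_, ?_, ?_, ?_, ?_⟩, hm1, ?_⟩
  · rw [hm1]
    exact hht.trans_lt hα
  · intro β hβ
    rw [hm.lev β (hβ.trans hht), hlev β hβ]
  · rw [hm2]
    exact subset_union_right
  · intro ξ hξ
    rw [hm3 ξ (Or.inr hξ)]
    split_ifs with h
    · exact hf ξ hξ h
    · exact inter_eq_left.2 (f_sub _ _)
  · intro ξ hξ η hη hlt x hx hle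
    rw [hm3 η (Or.inr hη)] at hx
    rw [hm3 ξ (Or.inr hξ)]
    split_ifs at hx with h
    · obtain ⟨h1, h2⟩ := htow ξ hξ η hη h hlt x hx hle
      rw [if_pos h1]
      exact h2
    · exact absurd (f_sub _ _ hx) (not_lt.2 hle)
  · intro ξ hξ h
    rw [hm3 ξ (Or.inr hξ), if_neg h]

end Cond

end Pool.Agent.T2H97.KS
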