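import Mathlib
import Pool.Agent.Helper669.Forcing
import Pool.Agent.T2H97.KS.Cond

set_option autoImplicit false

/-!
# Closure and chain condition, and the sealing lemma
-/

namespace Pool.Agent.T2H97.KS

open Cardinal Set Pool.Agent.Helper669.KDelta Pool.Agent.Helper669.Forcing

section General

variable {κ : Cardinal.{0}} {P : Type} [Preorder P]

/-- fewer than `κ` many dense sets are met -/
theorem exists_all (hκ : ℵ₀ ≤ κ) (hP : DirectedClosed κ P) {ι : Type} (hι : #ι < κ) (p : P)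
    (A : ι → Set P) (hA : ∀ i, Down (A i)) (hd : ∀ i, ∀ q ≤ p, ∃ r ≤ q, r ∈ A i) :
    ∃ r ≤ p, ∀ i, r ∈ A i := by
  have : Nonempty P := ⟨p⟩
  let lt : ι → ι → Prop := WellOrderingRel
  have hwf : WellFounded lt := WellOrderingRel.isWellOrder.wf
  have htr : ∀ i j, lt i j ∨ i = j ∨ lt j i := by
    intro i j
    by_contra hcon
    push Not at hcon
    exact hcon.2.1 (WellOrderingRel.isWellOrder.trichotomous i j hcon.1 hcon.2.2)
  have hchain : ∀ (B : Set ι) (f : ι → P), (∀ i ∈ B, f i ≤ p) →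
      (∀ i ∈ B, ∀ j ∈ B, lt j i → f i ≤ f j) → ∃ m ≤ p, ∀ i ∈ B, m ≤ f i := by
    intro B f h1 h2
    obtain ⟨m, hm⟩ := hP (insert p (f '' B)) ⟨p, mem_insert _ _⟩ (by
      have h3 : #(f '' B) < κ := mk_image_le.trans_lt ((mk_set_le _).trans_lt hι)
      rw [insert_eq]
      refine (mk_union_le _ _).trans_lt (add_lt_of_lt hκ ?_ h3)
      rw [mk_singleton]
      exact one_lt_aleph0.trans_le hκ) (by
      rintro x (rfl | ⟨i, hi, rfl⟩) y (rfl | ⟨j, hj, rfl⟩)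
      · exact ⟨_, mem_insert _ _, le_rfl, le_rfl⟩
      · exact ⟨f j, mem_insert_of_mem _ ⟨j, hj, rfl⟩, h1 j hj, le_rfl⟩
      · exact ⟨f i, mem_insert_of_mem _ ⟨i, hi, rfl⟩, le_rfl, h1 i hi⟩
      · rcases htr i j with h | h | h
        · exact ⟨f j, mem_insert_of_mem _ ⟨j, hj, rfl⟩, h2 j hj i hi h, le_rfl⟩
        · subst h
          exact ⟨f i, mem_insert_of_mem _ ⟨i, hi, rfl⟩, le_rfl, le_rfl⟩
        · exact ⟨f i, mem_insert_of_mem _ ⟨i, hi, rfl⟩, le_rfl, h2 i hi j hj h⟩)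
    exact ⟨m, hm p (mem_insert _ _), fun i hi => hm _ (mem_insert_of_mem _ ⟨i, hi, rfl⟩)⟩
  obtain ⟨f, hf⟩ := rec_choice (ι := ι) (β := P) (r := lt) hwf
    (fun i f b => b ≤ p ∧ (∀ j, lt j i → b ≤ f j) ∧ b ∈ A i)
    (by
      rintro i f g b hfg ⟨h1, h2, h3⟩
      refine ⟨h1, fun j hj => ?_, h3⟩
      rw [← hfg j hj]
      exact h2 j hj)
    (by
      intro i f hf
      obtain ⟨m, hm, hm'⟩ := hchain {j | lt j i} f (fun j hj => (hf j hj).1)
        (fun j hj k hk hkj => (hf j hj).2.1 k hkj)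
      obtain ⟨r, hr, hr'⟩ := hd i m hm
      exact ⟨r, hr.trans hm, fun j hj => hr.trans (hm' j hj), hr'⟩)
  obtain ⟨m, hm, hm'⟩ := hchain univ f (fun j _ => (hf j).1)
    (fun j _ k _ hkj => (hf j).2.1 k hkj)
  exact ⟨m, hm, fun i => hA i _ (hf i).2.2 m (hm' i (mem_univ i))⟩

/-- a named function with a small domain is in the ground model -/
theorem exists_decide (hκ : ℵ₀ ≤ κ) (hP : DirectedClosed κ P) {X Y : Type} (hX : #X < κ) (p : P)
    (R : X → Y → Set P) (hR : p ∈ IsFun R) : ∃ q ≤ p, ∃ f : X → Y, ∀ x, q ∈ meets (R x (f x)) := by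
  obtain ⟨q, hq, hq'⟩ := exists_all hκ hP hX p (fun x => {r | ∃ y, r ∈ meets (R x y)})
    (fun x r hr r' hr' => by
      obtain ⟨y, hy⟩ := hr
      exact ⟨y, down_meets _ _ hy _ hr'⟩)
    (fun x q hq => by
      obtain ⟨r, hr, y, hy⟩ := IsFun.total (down_IsFun R _ hR _ hq) x
      exact ⟨r, hr, y, hy⟩)
  choose f hf using hq'
  exact ⟨q, hq, f, hf⟩

/-- a named small subset is in the ground model -/
theorem exists_decide_set (hκ : ℵ₀ ≤ κ) (hP : DirectedClosed κ P) {X : Type} (B : Set X)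
    (hB : #B < κ) (p : P) (y : X → Set P) :
    ∃ q ≤ p, ∀ x ∈ B, q ∈ meets (y x) ∨ q ∈ fnot (meets (y x)) := by
  obtain ⟨q, hq, hq'⟩ := exists_all hκ hP hB p
    (fun x => {r | r ∈ meets (y x.1) ∨ r ∈ fnot (meets (y x.1))})
    (fun x r hr r' hr' => by
      rcases hr with h | h
      · exact Or.inl (down_meets _ _ h _ hr')
      · exact Or.inr (down_fnot _ _ h _ hr'))
    (fun x q _ => by
      by_cases h : ∃ r ≤ q, r ∈ meets (y x.1)
      · obtain ⟨r, hr, hr'⟩ := h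
        exact ⟨r, hr, Or.inl hr'⟩
      · push Not at h
        exact ⟨q, le_rfl, Or.inr h⟩)
  exact ⟨q, hq, fun x hx => hq' ⟨x, hx⟩⟩

end General

namespace Cond

variable {κ : Cardinal.{0}}

theorem directedClosed (hreg : κ.IsRegular) : DirectedClosed κ (Cond κ) := by
  intro S hne hS hdir
  obtain ⟨m, hm, _⟩ := exists_lb hreg S hne hdir hS
  exact ⟨m, hm⟩

/-- Among more than `κ` conditions, two are compatible. -/
theorem exists_compatible (hκ : ℵ₀ ≤ κ) (hpow : ∀ μ < κ, κ ^ μ ≤ κ) {E : Type} (hE : ¬ #E ≤ κ)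
    (p : E → Cond κ) : ∃ e e', e ≠ e' ∧ ∃ m, m ≤ p e ∧ m ≤ p e' := by
  have hreg := isRegular_of_pow hκ hpow
  obtain ⟨T, R, hT, hR, hTR⟩ := weak_delta hκ hE (fun e => (p e).D) (fun e => (p e).small_D)
  let B : Set (Set (Od κ)) := {s | #s < κ}
  have hB : #B ≤ κ := mk_small_subsets hκ hpow (mk_Od κ).le
  have hB1 : ∀ (q : Cond κ) (β : Od κ), ∀ s ∈ q.lev β, s ∈ B := by
    intro q β s hs
    exact lt_mono (q.lev_sub _ _ hs) (mk_Iio_lt β)
  let Z1 : Type := Od κ × B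
  let Z2 : Type := R × B
  have hZ1 : #Z1 ≤ κ := by
    change #(Od κ × B) ≤ κ
    rw [mk_prod, lift_id, lift_id, mk_Od]
    exact (mul_le_mul_right hB _).trans (mul_eq_self hκ).le
  have hZ2 : #Z2 ≤ κ := by
    change #(R × B) ≤ κ
    rw [mk_prod, lift_id, lift_id]
    exact (mul_le_mul' hR hB).trans (mul_eq_self hκ).le
  let c1 : Cond κ → Set Z1 := fun q => {z | z.2.1 ∈ q.lev z.1}
  let c2 : Cond κ → Set Z2 := fun q => {z | z.1.1 ∈ q.D ∧ q.f z.1.1 = z.2.1}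
  have hc1 : ∀ q : Cond κ, #(c1 q) < κ := by
    intro q
    have h1 : c1 q ⊆ ⋃ β ∈ Iic q.ht, (fun s : B => ((β, s) : Z1)) '' {s | s.1 ∈ q.lev β} := by
      rintro ⟨β, s⟩ hs
      simp only [mem_iUnion]
      exact ⟨β, ht_of_mem hs, s, hs, rfl⟩
    refine lt_mono h1 (lt_biUnion hreg _ (mk_Iic_lt hreg _) _ fun β _ => lt_image _ ?_)
    refine (mk_le_of_injective (f := fun s : {s : B | s.1 ∈ q.lev β} =>
      (⟨s.1.1, s.2⟩ : q.lev β)) ?_).trans_lt (q.small_lev β)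
    intro s s' h
    have h' : s.1.1 = s'.1.1 := congrArg (fun z : q.lev β => z.1) h
    exact Subtype.ext (Subtype.ext h')
  have hc2 : ∀ q : Cond κ, #(c2 q) < κ := by
    intro q
    refine (mk_le_of_injective (f := fun z : c2 q => (⟨z.1.1.1, z.2.1⟩ : q.D)) ?_).trans_lt
      q.small_D
    rintro ⟨⟨a, b⟩, h1, h2⟩ ⟨⟨a', b'⟩, h1', h2'⟩ h
    have h3 : a.1 = a'.1 := congrArg (fun z : q.D => z.1) h
    have h4 : a = a' := Subtype.ext h3
    subst h4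
    have h5 : b = b' := Subtype.ext (h2.symm.trans h2')
    subst h5
    rfl
  let C : Type := Od κ × ({S : Set Z1 | #S < κ} × {S : Set Z2 | #S < κ})
  have hC : #C ≤ κ := by
    change #(Od κ × ({S : Set Z1 | #S < κ} × {S : Set Z2 | #S < κ})) ≤ κ
    rw [mk_prod, mk_prod, lift_id, lift_id, lift_id, lift_id, mk_Od]
    have h1 := mk_small_subsets hκ hpow hZ1
    have h2 := mk_small_subsets hκ hpow hZ2
    refine (mul_le_mul_right ((mul_le_mul' h1 h2).trans (mul_eq_self hκ).le) _).trans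
      (mul_eq_self hκ).le
  let c : T → C := fun e => ((p e.1).ht, ⟨c1 (p e.1), hc1 _⟩, ⟨c2 (p e.1), hc2 _⟩)
  have hni : ¬ Function.Injective c := fun h => hT ((mk_le_of_injective h).trans hC)
  rw [Function.not_injective_iff] at hni
  obtain ⟨e, e', he, hne⟩ := hni
  have hne' : e.1 ≠ e'.1 := fun h => hne (Subtype.ext h)
  refine ⟨e.1, e'.1, hne', ?_⟩
  have h1 : (p e.1).ht = (p e'.1).ht := congrArg Prod.fst he
  have h2 : c1 (p e.1) = c1 (p e'.1) := congrArg (fun z : C => z.2.1.1) he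
  have h3 : c2 (p e.1) = c2 (p e'.1) := congrArg (fun z : C => z.2.2.1) he
  have h4 : ∀ β, (p e.1).lev β = (p e'.1).lev β := by
    intro β
    ext s
    constructor
    · intro hs
      have : ((β, ⟨s, hB1 _ _ _ hs⟩) : Z1) ∈ c1 (p e.1) := hs
      rw [h2] at this
      exact this
    · intro hs
      have : ((β, ⟨s, hB1 _ _ _ hs⟩) : Z1) ∈ c1 (p e'.1) := hs
      rw [← h2] at this
      exact this
  have h5 : ∀ ξ ∈ (p e'.1).D, ξ ∈ (p e.1).D → (p e.1).f ξ = (p e'.1).f ξ := by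
    intro ξ h h'
    have hξR : ξ ∈ R := hTR _ e.2 _ e'.2 hne' ⟨h', h⟩
    have hb : (p e.1).f ξ ∈ B := hB1 _ _ _ ((p e.1).f_top ξ h')
    have : ((⟨ξ, hξR⟩, ⟨(p e.1).f ξ, hb⟩) : Z2) ∈ c2 (p e.1) := ⟨h', rfl⟩
    rw [h3] at this
    exact this.2.symm
  obtain ⟨α, hα⟩ := exists_gt hreg (p e.1).ht
  obtain ⟨m, hm1, hm2, _⟩ := exists_amalgam hreg (p e.1) (p e'.1) α hα h1.ge
    (fun β _ => h4 β)
    (fun ξ hξ hξ' => by
      rw [h5 ξ hξ hξ', inter_eq_left.2 (f_sub _ _)])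
    (fun ξ _ η _ _ _ x hx hle => by
      rw [← h1] at hle
      exact absurd (f_sub _ _ hx) (not_lt.2 hle))
  exact ⟨m, Or.inr hm1, Or.inr hm2⟩

theorem chainCondition (hκ : ℵ₀ ≤ κ) (hpow : ∀ μ < κ, κ ^ μ ≤ κ) :
    ChainCondition κ (Cond κ) := by
  intro A hA
  by_contra hcon
  obtain ⟨e, e', hne, m, h1, h2⟩ := exists_compatible hκ hpow hcon (fun e : A => e.1)
  exact hA e.1 e.2 e'.1 e'.2 (fun h => hne (Subtype.ext h)) ⟨m, h1, h2⟩

/-- the height can be increased -/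
theorem exists_ht (hreg : κ.IsRegular) (p : Cond κ) (β : Od κ) :
    ∃ q ≤ p, p.ht < q.ht ∧ β < q.ht ∧ q.D = p.D := by
  obtain ⟨α, hα, hα'⟩ := exists_gt₂ hreg p.ht β
  obtain ⟨q, hq, hq1, hq2, _⟩ := exists_extend hreg p α hα p.D subset_rfl p.small_D p.f
    (fun ξ _ => (f_sub _ _).trans (Iio_subset_Iio hα.le))
    (fun ξ _ => inter_eq_left.2 (f_sub _ _))
    (fun ξ hξ => by
      rw [inter_eq_left.2 (f_sub _ _)]
      exact p.f_top ξ hξ)
    (fun ξ _ η _ _ x hx hle => absurd (f_sub _ _ hx) (not_lt.2 hle))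
  exact ⟨q, Or.inr hq, hq.ht, hq1 ▸ hα', hq2⟩

/-- the domain can be increased -/
theorem exists_D (hreg : κ.IsRegular) (p : Cond κ) (ζ : Od (Order.succ κ)) :
    ∃ q ≤ p, ζ ∈ q.D := by
  by_cases hζ : ζ ∈ p.D
  · exact ⟨p, le_rfl, hζ⟩
  obtain ⟨α, hα⟩ := exists_gt hreg p.ht
  obtain ⟨q, hq, hq1, hq2, _⟩ := exists_extend hreg p α hα (insert ζ p.D) (subset_insert _ _)
    (lt_insert hreg _ p.small_D) p.f
    (fun ξ _ => (f_sub _ _).trans (Iio_subset_Iio hα.le))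
    (fun ξ _ => inter_eq_left.2 (f_sub _ _))
    (fun ξ hξ => by
      rw [inter_eq_left.2 (f_sub _ _)]
      by_cases h : ξ ∈ p.D
      · exact p.f_top ξ h
      · rw [p.f_out ξ h]
        exact p.lev_empty _ le_rfl)
    (fun ξ _ η _ _ x hx hle => absurd (f_sub _ _ hx) (not_lt.2 hle))
  refine ⟨q, Or.inr hq, ?_⟩
  rw [hq2]
  exact mem_insert _ _

/-- all old elements of the scale can be extended by an interval -/
theorem exists_add (hreg : κ.IsRegular) (p : Cond κ) (β : Od κ) :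
    ∃ q ≤ p, β < q.ht ∧ ∀ ξ ∈ p.D, q.f ξ = p.f ξ ∪ {x | p.ht ≤ x ∧ x ≤ β} := by
  obtain ⟨α, hα, hα'⟩ := exists_gt₂ hreg p.ht β
  obtain ⟨q, hq, hq1, hq2, hq3⟩ := exists_extend hreg p α hα p.D subset_rfl p.small_D
    (fun ξ => p.f ξ ∪ {x | p.ht ≤ x ∧ x ≤ β})
    (fun ξ _ => by
      rintro x (hx | hx)
      · exact lt_trans (f_sub _ _ hx) hα
      · exact lt_of_le_of_lt hx.2 hα')
    (fun ξ _ => by
      ext x
      constructor
      · rintro ⟨(hx | hx), hx'⟩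
        · exact hx
        · exact absurd hx.1 (not_le.2 hx')
      · exact fun hx => ⟨Or.inl hx, f_sub _ _ hx⟩)
    (fun ξ hξ => by
      have : (p.f ξ ∪ {x | p.ht ≤ x ∧ x ≤ β}) ∩ Iio p.ht = p.f ξ := by
        ext x
        constructor
        · rintro ⟨(hx | hx), hx'⟩
          · exact hx
          · exact absurd hx.1 (not_le.2 hx')
        · exact fun hx => ⟨Or.inl hx, f_sub _ _ hx⟩
      rw [this]
      exact p.f_top ξ hξ)
    (fun ξ _ η _ _ x hx hle => by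
      rcases hx with hx | hx
      · exact absurd (f_sub _ _ hx) (not_lt.2 hle)
      · exact Or.inr hx)
  exact ⟨q, Or.inr hq, hq1 ▸ hα', fun ξ hξ => hq3 ξ hξ⟩

/-- The sealing lemma. -/
theorem sealing (hκ : ℵ₀ < κ) (hreg : κ.IsRegular) (Out : Cond κ → Od κ → Set (Od κ) → Prop)
    (hmono : ∀ p q γ β s s', Out p γ s → q ≤ p → γ ≤ β → s' ∩ Iio γ = s → Out q β s')
    (p0 : Cond κ) (H1 : ∀ r ≤ p0, ∀ ξ ∈ r.D, ∃ r' ≤ r, Out r' r'.ht (r'.f ξ))
    (H2 : ∀ r ≤ p0, ∀ s ∈ r.lev r.ht, ∃ r' ≤ r, Out r' r'.ht s) :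
    ∃ m ≤ p0, ∀ s ∈ m.lev m.ht, Out m m.ht s := by
  have step : ∀ q ≤ p0, ∃ q' ≤ q, (∀ ξ ∈ q.D, Out q' q'.ht (q'.f ξ)) ∧
      ∀ s ∈ q.lev q.ht, Out q' q'.ht s := by
    intro q hq
    have hsmall : #(q.D ⊕ q.lev q.ht) < κ := by
      rw [mk_sum, lift_id, lift_id]
      exact add_lt_of_lt hκ.le q.small_D (q.small_lev _)
    obtain ⟨r, hr, hr'⟩ := exists_all hκ.le (directedClosed hreg) hsmall q
      (fun i => Sum.elim (fun ξ => {r | r ≤ q ∧ Out r r.ht (r.f ξ.1)})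
        (fun s => {r | r ≤ q ∧ Out r r.ht s.1}) i)
      (by
        rintro (ξ | s) r ⟨hr1, hr2⟩ r' hr'
        · exact ⟨hr'.trans hr1, hmono _ _ _ _ _ _ hr2 hr' (le_ht hr')
            (le_f hr' (le_D hr1 ξ.2))⟩
        · refine ⟨hr'.trans hr1, hmono _ _ _ _ _ _ hr2 hr' (le_ht hr') ?_⟩
          exact inter_eq_left.2 ((q.lev_sub _ _ s.2).trans (Iio_subset_Iio (le_ht hr1))))
      (by
        rintro (ξ | s) r hr
        · obtain ⟨r', hr', h⟩ := H1 r (hr.trans hq) ξ.1 (le_D hr ξ.2)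
          exact ⟨r', hr', hr'.trans hr, h⟩
        · have h1 : s.1 ∈ r.lev r.ht := by
            refine r.lev_ext _ _ (le_ht hr) le_rfl _ ?_
            rw [le_lev hr le_rfl]
            exact s.2
          obtain ⟨r', hr', h⟩ := H2 r (hr.trans hq) s.1 h1
          exact ⟨r', hr', hr'.trans hr, h⟩)
    exact ⟨r, hr, fun ξ hξ => (hr' (Sum.inl ⟨ξ, hξ⟩)).2, fun s hs => (hr' (Sum.inr ⟨s, hs⟩)).2⟩
  choose! F hF1 hF2 hF3 using step
  let s : ℕ → {q : Cond κ // q ≤ p0} := fun n =>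
    Nat.rec ⟨p0, le_rfl⟩ (fun _ q => ⟨F q.1, (hF1 q.1 q.2).trans q.2⟩) n
  have hs : ∀ n, (s (n + 1)).1 = F (s n).1 := fun n => rfl
  have hanti : Antitone fun n => (s n).1 := by
    refine antitone_nat_of_succ_le fun n => ?_
    rw [hs]
    exact hF1 _ (s n).2
  obtain ⟨m, hm, hm'⟩ := exists_lb hreg (range fun n => (s n).1) ⟨_, 0, rfl⟩
    (by
      rintro _ ⟨a, rfl⟩ _ ⟨b, rfl⟩
      exact ⟨_, ⟨max a b, rfl⟩, hanti (le_max_left _ _), hanti (le_max_right _ _)⟩)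
    (mk_range_le.trans_lt (by simpa using hκ))
  refine ⟨m, hm _ ⟨0, rfl⟩, fun t ht => ?_⟩
  rcases hm' t ht with ⟨_, ⟨n, rfl⟩, h⟩ | ⟨_, ⟨n, rfl⟩, ξ, hξ, rfl⟩
  · have h1 := hF3 _ (s n).2 t h
    rw [← hs] at h1
    have h2 := hm _ ⟨n + 1, rfl⟩
    refine hmono _ _ _ _ _ _ h1 h2 (le_ht h2) ?_
    refine inter_eq_left.2 (((s n).1.lev_sub _ _ h).trans (Iio_subset_Iio ?_))
    exact le_ht (hanti (Nat.le_succ n))
  · have h1 := hF2 _ (s n).2 ξ hξ
    rw [← hs] at h1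
    have h2 := hm _ ⟨n + 1, rfl⟩
    exact hmono _ _ _ _ _ _ h1 h2 (le_ht h2) (le_f h2 (le_D (hanti (Nat.le_succ n)) hξ))

end Cond

end Pool.Agent.T2H97.KS
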