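import Mathlib
import Pool.Agent.T2H97.KS.Basic

set_option autoImplicit false

/-!
# Order types of sets of ordinals below `κ`
-/

namespace Pool.Agent.T2H97.KS

open Cardinal Set

variable {κ : Cardinal.{0}}

/-- The order type of a set of ordinals. -/
noncomputable def otp (s : Set (Od κ)) : Ordinal.{0} := Ordinal.type (α := s) (· < ·)

theorem otp_le_of_map {s t : Set (Od κ)} (f : s → t) (hf : ∀ a b, a < b → f a < f b) :
    otp s ≤ otp t :=
  (RelEmbedding.ofMonotone (r := ((· < ·) : s → s → Prop)) (s := ((· < ·) : t → t → Prop))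
    f hf).ordinal_type_le

theorem otp_mono {s t : Set (Od κ)} (h : s ⊆ t) : otp s ≤ otp t :=
  otp_le_of_map (Set.inclusion h) fun _ _ hab => hab

theorem otp_inter_Iio {s : Set (Od κ)} {u : Od κ} (hu : u ∈ s) :
    otp (s ∩ Iio u) = Ordinal.typein (α := s) (· < ·) ⟨u, hu⟩ := by
  have h1 : Ordinal.typein (α := s) (· < ·) ⟨u, hu⟩ =
      Ordinal.type (Subrel ((· < ·) : s → s → Prop) (· < (⟨u, hu⟩ : s))) := by
    exact (Ordinal.type_subrel _ _).symm
  rw [h1]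
  refine Ordinal.type_eq.2 ⟨⟨⟨fun x => ⟨⟨x.1, x.2.1⟩, x.2.2⟩, fun x => ⟨x.1.1, x.1.2, x.2⟩,
    fun x => rfl, fun x => rfl⟩, ?_⟩⟩
  intro a b
  exact Iff.rfl

theorem otp_inter_Iio_lt {s : Set (Od κ)} {u : Od κ} (hu : u ∈ s) : otp (s ∩ Iio u) < otp s := by
  rw [otp_inter_Iio hu]
  exact Ordinal.typein_lt_type _ _

theorem otp_inter_lt {s : Set (Od κ)} {u v : Od κ} (hu : u ∈ s) (huv : u < v) :
    otp (s ∩ Iio u) < otp (s ∩ Iio v) := by
  have h : s ∩ Iio u = (s ∩ Iio v) ∩ Iio u := by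
    rw [inter_assoc, inter_eq_right.2 (Iio_subset_Iio huv.le)]
  rw [h]
  exact otp_inter_Iio_lt ⟨hu, huv⟩

theorem exists_otp {s : Set (Od κ)} {o : Ordinal.{0}} (ho : o < otp s) :
    ∃ u ∈ s, otp (s ∩ Iio u) = o := by
  obtain ⟨⟨u, hu⟩, h⟩ := Ordinal.typein_surj (α := s) (· < ·) ho
  exact ⟨u, hu, by rw [otp_inter_Iio hu]; exact h⟩

theorem otp_univ : otp (univ : Set (Od κ)) = κ.ord := by
  rw [← Ordinal.type_toType κ.ord]
  refine Ordinal.type_eq.2 ⟨⟨⟨fun x => x.1, fun x => ⟨x, mem_univ x⟩, fun x => rfl,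
    fun x => rfl⟩, ?_⟩⟩
  intro a b
  exact Iff.rfl

theorem otp_Iio_lt (i : Od κ) : otp (Iio i) < κ.ord := by
  have := otp_inter_Iio_lt (mem_univ i)
  rwa [univ_inter, otp_univ] at this

theorem otp_Iio_lt_Iio {i j : Od κ} (h : i < j) : otp (Iio i) < otp (Iio j) := by
  have := otp_inter_lt (mem_univ i) h
  rwa [univ_inter, univ_inter] at this

theorem otp_Iio_le_Iio {i j : Od κ} : otp (Iio i) ≤ otp (Iio j) ↔ i ≤ j := by
  constructor
  · intro h
    by_contra hcon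
    exact absurd (otp_Iio_lt_Iio (not_le.1 hcon)) (not_lt.2 h)
  · exact fun h => otp_mono (Iio_subset_Iio h)

theorem otp_Iio_lt_iff {i j : Od κ} : otp (Iio i) < otp (Iio j) ↔ i < j := by
  rw [← not_le, otp_Iio_le_Iio, not_le]

theorem otp_Iio_inj {i j : Od κ} (h : otp (Iio i) = otp (Iio j)) : i = j :=
  le_antisymm (otp_Iio_le_Iio.1 h.le) (otp_Iio_le_Iio.1 h.ge)

theorem exists_otp_Iio {o : Ordinal.{0}} (ho : o < κ.ord) : ∃ i : Od κ, otp (Iio i) = o := by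
  obtain ⟨i, _, h⟩ := exists_otp (s := (univ : Set (Od κ))) (by rwa [otp_univ])
  exact ⟨i, by rwa [univ_inter] at h⟩

theorem otp_union_le {s A B : Set (Od κ)} (δ : Od κ) (hA : s ∩ Iio δ ⊆ A)
    (hB : ∀ x ∈ s, δ ≤ x → x ∈ B) : otp s ≤ otp A + otp B := by
  classical
  have h1 : otp A + otp B = Ordinal.type (Sum.Lex ((· < ·) : A → A → Prop)
      ((· < ·) : B → B → Prop)) := (Ordinal.type_sum_lex _ _).symm
  rw [h1]
  refine (RelEmbedding.ofMonotone (r := ((· < ·) : s → s → Prop))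
    (s := Sum.Lex ((· < ·) : A → A → Prop) ((· < ·) : B → B → Prop))
    (fun x => if h : x.1 < δ then Sum.inl ⟨x.1, hA ⟨x.2, h⟩⟩
      else Sum.inr ⟨x.1, hB x.1 x.2 (not_lt.1 h)⟩) ?_).ordinal_type_le
  intro a b hab
  have hab' : a.1 < b.1 := hab
  by_cases ha : a.1 < δ
  · by_cases hb : b.1 < δ
    · rw [dif_pos ha, dif_pos hb]
      exact Sum.Lex.inl hab'
    · rw [dif_pos ha, dif_neg hb]
      exact Sum.Lex.sep _ _
  · have hb : ¬ b.1 < δ := fun h => ha (hab'.trans h)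
    rw [dif_neg ha, dif_neg hb]
    exact Sum.Lex.inr hab'

theorem add_lt_ord (hκ : ℵ₀ ≤ κ) {a b : Ordinal.{0}} (ha : a < κ.ord) (hb : b < κ.ord) :
    a + b < κ.ord := by
  rw [lt_ord] at ha hb ⊢
  rw [Ordinal.card_add]
  exact add_lt_of_lt hκ ha hb

theorem mul_lt_ord (hκ : ℵ₀ ≤ κ) {a b : Ordinal.{0}} (ha : a < κ.ord) (hb : b < κ.ord) :
    a * b < κ.ord := by
  rw [lt_ord] at ha hb ⊢
  rw [Ordinal.card_mul]
  exact mul_lt_of_lt hκ ha hb

/-- a long interval -/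
theorem exists_interval (hκ : ℵ₀ ≤ κ) (α : Od κ) (i : Od κ) :
    ∃ β : Od κ, otp (Iio i) < otp {x | α ≤ x ∧ x ≤ β} := by
  obtain ⟨β, hβ⟩ := exists_otp_Iio (add_lt_ord hκ (otp_Iio_lt α) (otp_Iio_lt i))
  refine ⟨β, ?_⟩
  by_contra hcon
  rw [not_lt] at hcon
  have h1 : otp (Iic β) ≤ otp (Iio α) + otp {x | α ≤ x ∧ x ≤ β} :=
    otp_union_le α inter_subset_right fun x hx hx' => ⟨hx', hx⟩
  have h2 : otp (Iio β) < otp (Iic β) := by
    have := otp_inter_Iio_lt (s := Iic β) (u := β) (mem_Iic.2 le_rfl)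
    have h : Iic β ∩ Iio β = Iio β := inter_eq_right.2 Iio_subset_Iic_self
    rwa [h] at this
  have h3 : otp (Iic β) ≤ otp (Iio β) := by
    rw [hβ]
    exact h1.trans (by gcongr)
  exact absurd h3 (not_le.2 h2)

/-- The main comparison: from some index on, almost inclusion of sets gives domination of the
enumerating functions. -/
theorem le_of_almost_subset {A B : Set (Od κ)} {δ : Od κ} (hAB : ∀ x ∈ A, δ ≤ x → x ∈ B)
    {i : Ordinal.{0}} (hi : otp (Iio δ) * Ordinal.omega0 ≤ i) {u v : Od κ}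
    (hv : v ∈ A) (hv' : otp (A ∩ Iio v) = i) (hu' : otp (B ∩ Iio u) = i) : u ≤ v := by
  by_contra hcon
  rw [not_le] at hcon
  have hδi : otp (Iio δ) ≤ i := by
    refine le_trans ?_ hi
    exact Ordinal.le_mul_left _ Ordinal.omega0_pos
  have hδv : δ ≤ v := by
    by_contra hlt
    rw [not_le] at hlt
    have h1 : otp (A ∩ Iio v) ≤ otp (Iio v) := otp_mono inter_subset_right
    rw [hv'] at h1
    exact absurd (h1.trans_lt (otp_Iio_lt_Iio hlt)) (not_lt.2 hδi)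
  have hvB : v ∈ B := hAB v hv hδv
  have hlt : otp (B ∩ Iio v) < i := by
    rw [← hu']
    exact otp_inter_lt hvB hcon
  have h2 : i ≤ otp (Iio δ) + otp (B ∩ Iio v) := by
    rw [← hv']
    exact otp_union_le δ (fun x hx => hx.2) fun x hx hx' => ⟨hAB x hx.1 hx', hx.2⟩
  have h3 : otp (Iio δ) + i = i := Ordinal.add_eq_right_iff_mul_omega0_le.2 hi
  have h4 : otp (Iio δ) + otp (B ∩ Iio v) < i := by
    conv_rhs => rw [← h3]
    gcongr
  exact absurd h2 (not_le.2 h4)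

end Pool.Agent.T2H97.KS
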