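import Mathlib
import Pool.Agent.T2H97.KS.Closed
import Pool.Agent.T2H97.KS.Otp

set_option autoImplicit false

/-!
# The scale
-/

namespace Pool.Agent.T2H97.KS

open Cardinal Set Pool.Agent.Helper669.KDelta Pool.Agent.Helper669.Forcing

section General

variable {P : Type} [Preorder P]

theorem exists_both {A B : Set P} (hA : Down A) (hB : Down B) {p : P} (h1 : p ∈ meets A)
    (h2 : p ∈ meets B) : ∃ q ≤ p, q ∈ A ∧ q ∈ B := by
  obtain ⟨q, hq, hq'⟩ := exists_of_meets hA h1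
  obtain ⟨r, hr, hr'⟩ := exists_of_meets hB (down_meets _ _ h2 q hq)
  exact ⟨r, hr.trans hq, hA _ hq' _ hr, hr'⟩

theorem meets_of_dense {N : Set P} {p : P} (h : ∀ q ≤ p, ∃ r ≤ q, r ∈ meets N) : p ∈ meets N := by
  intro q hq
  obtain ⟨r, hr, hr'⟩ := h q hq
  obtain ⟨t, ht, s, hs, hts⟩ := hr' r le_rfl
  exact ⟨t, ht.trans hr, s, hs, hts⟩

theorem down_LeStar {κ : Cardinal.{0}} (a b : Od κ → Od κ → Set P) : Down (LeStar a b) :=
  down_fex _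

end General

namespace Cond

variable {κ : Cardinal.{0}}

/-- The names of the elements of the scale, as functions. -/
def sc (ξ : Od (Order.succ κ)) (i u : Od κ) : Set (Cond κ) :=
  {q | ξ ∈ q.D ∧ u ∈ q.f ξ ∧ otp (q.f ξ ∩ Iio u) = otp (Iio i)}

theorem f_of_le {q p : Cond κ} (h : q ≤ p) {ξ : Od (Order.succ κ)} (hξ : ξ ∈ p.D) {u : Od κ}
    (hu : u < p.ht) : (u ∈ q.f ξ ↔ u ∈ p.f ξ) ∧ q.f ξ ∩ Iio u = p.f ξ ∩ Iio u := by
  rw [← le_f h hξ]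
  refine ⟨⟨fun h => ⟨h, hu⟩, fun h => h.1⟩, ?_⟩
  rw [inter_assoc, inter_eq_right.2 (Iio_subset_Iio hu.le)]

theorem down_sc (ξ : Od (Order.succ κ)) (i u : Od κ) : Down (sc ξ i u) := by
  rintro p ⟨h1, h2, h3⟩ q hq
  have h4 := f_of_le hq h1 (f_sub _ _ h2)
  exact ⟨le_D hq h1, h4.1.2 h2, by rw [h4.2]; exact h3⟩

theorem sc_le {q : Cond κ} {ξ : Od (Order.succ κ)} {i u j v : Od κ} (h : q ∈ sc ξ i u)
    (h' : q ∈ sc ξ j v) : i ≤ j ↔ u ≤ v := by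
  constructor
  · intro hij
    by_contra hcon
    rw [not_le] at hcon
    have h1 := otp_inter_lt h'.2.1 hcon
    rw [h.2.2, h'.2.2] at h1
    exact absurd (otp_Iio_lt_iff.1 h1) (not_lt.2 hij)
  · intro huv
    have h1 : otp (q.f ξ ∩ Iio u) ≤ otp (q.f ξ ∩ Iio v) :=
      otp_mono (inter_subset_inter_right _ (Iio_subset_Iio huv))
    rw [h.2.2, h'.2.2] at h1
    exact otp_Iio_le_Iio.1 h1

theorem sc_total (hκ : ℵ₀ ≤ κ) (hreg : κ.IsRegular) (ξ : Od (Order.succ κ)) (i : Od κ)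
    (q : Cond κ) : ∃ r ≤ q, ∃ u, r ∈ sc ξ i u := by
  obtain ⟨q1, hq1, hξ⟩ := exists_D hreg q ξ
  obtain ⟨β, hβ⟩ := exists_interval hκ q1.ht i
  obtain ⟨q2, hq2, hβ2, hf⟩ := exists_add hreg q1 β
  have h1 : otp (Iio i) < otp (q2.f ξ) := by
    refine hβ.trans_le (otp_mono ?_)
    rw [hf ξ hξ]
    exact subset_union_right
  obtain ⟨u, hu, hu'⟩ := exists_otp h1
  exact ⟨q2, hq2.trans hq1, u, le_D hq2 hξ, hu, hu'⟩

theorem isFun_sc (hκ : ℵ₀ ≤ κ) (hreg : κ.IsRegular) (ξ : Od (Order.succ κ)) (p : Cond κ) :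
    p ∈ IsFun (sc (κ := κ) ξ) := by
  refine ⟨fun i => mem_fex.2 fun q _ => ?_, fun i u v => mem_fimp.2 fun q _ hq => ?_⟩
  · obtain ⟨r, hr, u, hu⟩ := sc_total hκ hreg ξ i q
    exact ⟨r, hr, u, meets_of_mem hu⟩
  · obtain ⟨r, hr, h1, h2⟩ := exists_both (down_sc _ _ _) (down_sc _ _ _) hq.1 hq.2
    exact ⟨r, hr, le_antisymm ((sc_le h1 h2).1 le_rfl) ((sc_le h2 h1).1 le_rfl)⟩

theorem strictInc_sc (ξ : Od (Order.succ κ)) (p : Cond κ) :
    p ∈ StrictInc (sc (κ := κ) ξ) := by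
  refine fun i j u v => mem_fimp.2 fun q _ hq => ?_
  obtain ⟨hij, h1, h2⟩ := hq
  obtain ⟨r, hr, h1, h2⟩ := exists_both (down_sc _ _ _) (down_sc _ _ _) h1 h2
  refine ⟨r, hr, ?_⟩
  by_contra hcon
  have hcon' : v ≤ u := not_lt.1 hcon
  exact absurd ((sc_le h2 h1).2 hcon') (not_le.2 hij)

theorem leStar_sc (hκ : ℵ₀ < κ) (hreg : κ.IsRegular) {ξ η : Od (Order.succ κ)} (hlt : ξ < η)
    (p : Cond κ) : p ∈ LeStar (sc (κ := κ) ξ) (sc η) := by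
  refine mem_fex.2 fun q _ => ?_
  obtain ⟨q1, hq1, hξ⟩ := exists_D hreg q ξ
  obtain ⟨q2, hq2, hη⟩ := exists_D hreg q1 η
  have hω : Ordinal.omega0 < κ.ord := by
    rw [lt_ord, Ordinal.card_omega0]
    exact hκ
  obtain ⟨i₀, hi₀⟩ := exists_otp_Iio (mul_lt_ord hκ.le (otp_Iio_lt q2.ht) hω)
  refine ⟨q2, hq2.trans hq1, i₀, fun i u v => mem_fimp.2 fun r hr hr' => ?_⟩
  obtain ⟨hi, h1, h2⟩ := hr'
  obtain ⟨t, ht, h1, h2⟩ := exists_both (down_sc _ _ _) (down_sc _ _ _) h1 h2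
  refine ⟨t, ht, ?_⟩
  have hi' : otp (Iio q2.ht) * Ordinal.omega0 ≤ otp (Iio i) := by
    rw [← hi₀]
    exact otp_Iio_le_Iio.2 hi
  exact le_of_almost_subset (A := t.f η) (B := t.f ξ) (δ := q2.ht)
    (fun x hx hle => le_tower (ht.trans hr) (le_D hq2 hξ) hη hlt hx hle) hi' h2.2.1 h2.2.2 h1.2.2

/-- The scale is unbounded. -/
theorem unbounded_sc (hκ : ℵ₀ < κ) (hpow : ∀ μ < κ, κ ^ μ ≤ κ) (b : Od κ → Od κ → Set (Cond κ))
    (q : Cond κ) (hq : q ∈ IsFun b) : ∃ r ≤ q, ∃ ξ, r ∈ fnot (LeStar (sc (κ := κ) ξ) b) := by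
  have hreg := isRegular_of_pow hκ.le hpow
  have hreg' : (Order.succ κ).IsRegular := isRegular_succ hκ.le
  by_contra hcon
  push Not at hcon
  -- conditions forcing that the elements of the scale are bounded
  have h1 : ∀ ξ : Od (Order.succ κ), ∃ r : Cond κ, ∃ i₀ : Od κ, r ≤ q ∧ ξ ∈ r.D ∧
      ∀ i u v : Od κ, r ∈ fimp (fand (fground (i₀ ≤ i)) (fand (meets (sc ξ i u)) (meets (b i v))))
        (fground (u ≤ v)) := by
    intro ξ
    obtain ⟨q1, hq1, hξ⟩ := exists_D hreg q ξ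
    have h2 := hcon q1 hq1 ξ
    change ¬ ∀ r ≤ q1, r ∉ LeStar (sc (κ := κ) ξ) b at h2
    push Not at h2
    obtain ⟨r, hr, hr'⟩ := h2
    obtain ⟨r', hr1, i₀, h3⟩ := mem_fex.1 hr' r le_rfl
    exact ⟨r', i₀, (hr1.trans hr).trans hq1, le_D (hr1.trans hr) hξ, h3⟩
  choose r i₀ hrq hrD hr using h1
  choose k hk1 hk2 using fun a b : Od κ => exists_gt₂ hreg a b
  let I : Od (Order.succ κ) → Od κ := fun ξ => k (i₀ ξ) (r ξ).ht
  have h2 : ∀ ξ, ∃ s ≤ r ξ, ∃ v, s ∈ meets (b (I ξ) v) := fun ξ =>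
    IsFun.total (down_IsFun b _ hq _ (hrq ξ)) (I ξ)
  choose s hsr v hsv using h2
  -- the types
  let B : Set (Set (Od κ)) := {s | #s < κ}
  have hB : #B ≤ κ := mk_small_subsets hκ.le hpow (mk_Od κ).le
  have hB1 : ∀ (q : Cond κ) (β : Od κ), ∀ s ∈ q.lev β, s ∈ B := by
    intro q β s hs
    exact lt_mono (q.lev_sub _ _ hs) (mk_Iio_lt β)
  let Z1 : Type := Od κ × B
  have hZ1 : #Z1 ≤ κ := by
    change #(Od κ × B) ≤ κ
    rw [mk_prod, lift_id, lift_id, mk_Od]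
    exact (mul_le_mul_right hB _).trans (mul_eq_self hκ.le).le
  let c1 : Cond κ → Set Z1 := fun q => {z | z.2.1 ∈ q.lev z.1}
  have hc1 : ∀ q : Cond κ, #(c1 q) < κ := by
    intro q
    have h1 : c1 q ⊆ ⋃ β ∈ Iic q.ht, (fun s : B => ((β, s) : Z1)) '' {s | s.1 ∈ q.lev β} := by
      rintro ⟨β, s⟩ hs
      simp only [mem_iUnion]
      exact ⟨β, ht_of_mem hs, s, hs, rfl⟩
    refine lt_mono h1 (lt_biUnion hreg _ (mk_Iic_lt hreg _) _ fun β _ => lt_image _ ?_)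
    refine (mk_le_of_injective (f := fun s : {s : B | s.1 ∈ q.lev β} =>
      (⟨s.1.1, s.2⟩ : q.lev β)) ?_).trans_lt (q.small_lev β)
    intro s s' h
    have h' : s.1.1 = s'.1.1 := congrArg (fun z : q.lev β => z.1) h
    exact Subtype.ext (Subtype.ext h')
  let Same : Od (Order.succ κ) → Od (Order.succ κ) → Prop := fun ξ ζ =>
    (r ξ).ht = (r ζ).ht ∧ (∀ β, (r ξ).lev β = (r ζ).lev β) ∧ i₀ ξ = i₀ ζ ∧
      (∀ η, η ∈ (r ξ).D → η < ξ → η ∈ (r ζ).D ∧ η < ζ ∧ (r ξ).f η = (r ζ).f η)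
  have h3 : ∀ γ : Od (Order.succ κ), ∃ z : Od (Order.succ κ), ∀ ξ,
      (∀ η ∈ (r ξ).D, η < ξ → η < γ) → ∃ ζ < z, Same ξ ζ ∧ ∀ η ∈ (s ζ).D, η < z := by
    intro γ
    let X : Set (Od (Order.succ κ)) := {ξ | ∀ η ∈ (r ξ).D, η < ξ → η < γ}
    have hγ : #(Iio γ) ≤ κ := Order.lt_succ_iff.1 (mk_Iio_lt γ)
    let Z2 : Type := Iio γ × B
    have hZ2 : #Z2 ≤ κ := by
      change #(Iio γ × B) ≤ κ
      rw [mk_prod, lift_id, lift_id]
      exact (mul_le_mul' hγ hB).trans (mul_eq_self hκ.le).le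
    let c2 : Od (Order.succ κ) → Set Z2 := fun ξ =>
      {z | z.1.1 ∈ (r ξ).D ∧ z.1.1 < ξ ∧ (r ξ).f z.1.1 = z.2.1}
    have hc2 : ∀ ξ, #(c2 ξ) < κ := by
      intro ξ
      refine (mk_le_of_injective (f := fun z : c2 ξ =>
        (⟨z.1.1.1, z.2.1⟩ : (r ξ).D)) ?_).trans_lt (r ξ).small_D
      rintro ⟨⟨a, b⟩, h1, h2, h3⟩ ⟨⟨a', b'⟩, h1', h2', h3'⟩ h
      have h4 : a.1 = a'.1 := congrArg (fun z : (r ξ).D => z.1) h
      have h5 : a = a' := Subtype.ext h4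
      subst h5
      have h6 : b = b' := Subtype.ext (h3.symm.trans h3')
      subst h6
      rfl
    let C : Type := Od κ × (Od κ × ({S : Set Z1 | #S < κ} × {S : Set Z2 | #S < κ}))
    have hC : #C ≤ κ := by
      change #(Od κ × (Od κ × ({S : Set Z1 | #S < κ} × {S : Set Z2 | #S < κ}))) ≤ κ
      rw [mk_prod, mk_prod, mk_prod]
      simp only [lift_id, mk_Od]
      have h1 := mk_small_subsets hκ.le hpow hZ1
      have h2 := mk_small_subsets hκ.le hpow hZ2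
      have h3 := (mul_le_mul' h1 h2).trans (mul_eq_self hκ.le).le
      have h4 := (mul_le_mul_right h3 κ).trans (mul_eq_self hκ.le).le
      exact (mul_le_mul_right h4 κ).trans (mul_eq_self hκ.le).le
    let c : X → C := fun ξ =>
      ((r ξ.1).ht, i₀ ξ.1, ⟨c1 (r ξ.1), hc1 _⟩, ⟨c2 ξ.1, hc2 _⟩)
    have hsame : ∀ ξ ζ : X, c ξ = c ζ → Same ξ.1 ζ.1 := by
      intro ξ ζ h
      have h1 : (r ξ.1).ht = (r ζ.1).ht := congrArg Prod.fst h
      have h2 : i₀ ξ.1 = i₀ ζ.1 := congrArg (fun z : C => z.2.1) h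
      have h3 : c1 (r ξ.1) = c1 (r ζ.1) := congrArg (fun z : C => z.2.2.1.1) h
      have h4 : c2 ξ.1 = c2 ζ.1 := congrArg (fun z : C => z.2.2.2.1) h
      refine ⟨h1, ?_, h2, ?_⟩
      · intro β
        ext t
        constructor
        · intro hs
          have : ((β, ⟨t, hB1 _ _ _ hs⟩) : Z1) ∈ c1 (r ξ.1) := hs
          rw [h3] at this
          exact this
        · intro hs
          have : ((β, ⟨t, hB1 _ _ _ hs⟩) : Z1) ∈ c1 (r ζ.1) := hs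
          rw [← h3] at this
          exact this
      · intro η hη hlt
        have hb : (r ξ.1).f η ∈ B := hB1 _ _ _ ((r ξ.1).f_top η hη)
        have : ((⟨η, ξ.2 η hη hlt⟩, ⟨(r ξ.1).f η, hb⟩) : Z2) ∈ c2 ξ.1 := ⟨hη, hlt, rfl⟩
        rw [h4] at this
        exact ⟨this.1, this.2.1, this.2.2.symm⟩
    let rep : range c → X := fun z => z.2.choose
    have hrep : ∀ z : range c, c (rep z) = z.1 := fun z => z.2.choose_spec
    let Y : Set (Od (Order.succ κ)) := range fun z : range c => (rep z).1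
    have hY : #Y ≤ κ := mk_range_le.trans ((mk_set_le _).trans hC)
    have hY2 : #(Y ∪ ⋃ ζ ∈ Y, (s ζ).D : Set (Od (Order.succ κ))) < Order.succ κ := by
      rw [Order.lt_succ_iff]
      exact small_union hκ.le hY (small_biUnion hκ.le _ hY _ fun ζ _ => (s ζ).small_D.le)
    obtain ⟨z, hz⟩ := exists_bound hreg' _ hY2
    refine ⟨z, fun ξ hξ => ?_⟩
    let x : X := ⟨ξ, hξ⟩
    have hY3 : (rep ⟨c x, x, rfl⟩).1 ∈ Y := ⟨_, rfl⟩
    refine ⟨(rep ⟨c x, x, rfl⟩).1, hz _ (Or.inl hY3), hsame x _ (hrep ⟨c x, x, rfl⟩).symm, ?_⟩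
    intro η hη
    refine hz _ (Or.inr ?_)
    simp only [mem_iUnion]
    exact ⟨_, hY3, hη⟩
  choose h hh using h3
  -- the closure point
  have hne : Nonempty (Od (Order.succ κ)) := by
    rw [← mk_ne_zero_iff, mk_Od]
    exact hreg'.pos.ne'
  have hne1 : Nonempty (Od κ) := by
    rw [← mk_ne_zero_iff, mk_Od]
    exact hreg.pos.ne'
  obtain ⟨δ, hδ⟩ := rec_choice (ι := Od κ) (β := Od (Order.succ κ)) (r := (· < ·)) wellFounded_lt
    (fun i f c => ∀ j < i, f j < c ∧ h (f j) < c)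
    (by
      intro i f g c hfg hf j hj
      rw [← hfg j hj]
      exact hf j hj)
    (by
      intro i f _
      have hsm : #(f '' Iio i ∪ (fun j => h (f j)) '' Iio i : Set (Od (Order.succ κ))) <
          Order.succ κ := by
        rw [Order.lt_succ_iff]
        exact (lt_union hreg (lt_image _ (mk_Iio_lt i)) (lt_image _ (mk_Iio_lt i))).le
      obtain ⟨z, hz⟩ := exists_bound hreg' _ hsm
      exact ⟨z, fun j hj => ⟨hz _ (Or.inl ⟨j, hj, rfl⟩), hz _ (Or.inr ⟨j, hj, rfl⟩)⟩⟩)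
  obtain ⟨z0, hz0⟩ := exists_bound hreg' (range δ) (by
    rw [Order.lt_succ_iff]
    exact mk_range_le.trans (mk_Od κ).le)
  have hne' : {z : Od (Order.succ κ) | ∀ i, δ i < z}.Nonempty := ⟨z0, fun i => hz0 _ ⟨i, rfl⟩⟩
  obtain ⟨ε, hε, hmin⟩ : ∃ ε, (∀ i, δ i < ε) ∧ ∀ γ < ε, ∃ i, γ ≤ δ i := by
    refine ⟨wellFounded_lt.min _ hne', wellFounded_lt.min_mem _ hne', fun γ hγ => ?_⟩
    by_contra hcon
    push Not at hcon
    exact wellFounded_lt.not_lt_min {z : Od (Order.succ κ) | ∀ i, δ i < z} hcon hγ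
  have h4 : ∃ i : Od κ, ∀ η ∈ (r ε).D, η < ε → η < δ i := by
    choose! j hj using hmin
    obtain ⟨i, hi⟩ := exists_bound hreg (j '' (r ε).D) (lt_image _ (r ε).small_D)
    refine ⟨i, fun η hη hlt => ?_⟩
    have h5 := hi _ ⟨η, hη, rfl⟩
    exact (hj η hlt).trans_lt (hδ i (j η) h5).1
  obtain ⟨i, hi⟩ := h4
  obtain ⟨ζ, hζ, hsame, hζD⟩ := hh (δ i) ε hi
  obtain ⟨hht, hlev, hi0, hfs⟩ := hsame
  obtain ⟨i', hi'⟩ := exists_gt hreg i
  have hhε : h (δ i) < ε := ((hδ i' i hi').2).trans (hε i')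
  have hsε : ∀ η ∈ (s ζ).D, η < ε := fun η hη => (hζD η hη).trans hhε
  have hI : I ζ = I ε := by
    change k (i₀ ζ) (r ζ).ht = k (i₀ ε) (r ε).ht
    rw [← hht, ← hi0]
  obtain ⟨α, hα, hα'⟩ := exists_gt₂ hreg (s ζ).ht (v ζ)
  obtain ⟨m, hm1, hm2, hm3, hm4⟩ := exists_amalgam hreg (s ζ) (r ε) α hα
    (hht ▸ le_ht (hsr ζ))
    (fun β hβ => by
      rw [le_lev (hsr ζ) (hht ▸ hβ), hlev])
    (fun η hη hη' => by
      obtain ⟨h5, _, h6⟩ := hfs η hη (hsε η hη')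
      rw [h6, hht]
      exact le_f (hsr ζ) h5)
    (fun ξ hξ η hη hη' hlt x hx hle => by
      obtain ⟨h5, _, _⟩ := hfs η hη (hsε η hη')
      obtain ⟨h7, _, _⟩ := hfs ξ hξ (hlt.trans (hsε η hη'))
      exact ⟨le_D (hsr ζ) h7, le_tower (hsr ζ) h7 h5 hlt hx (hht ▸ hle)⟩)
  have hmf : m.f ε = (r ε).f ε := hm4 ε (hrD ε) fun h => lt_irrefl _ (hsε ε h)
  obtain ⟨t, ht, u, hu⟩ := sc_total hκ.le hreg ε (I ε) m
  have htr : t ≤ r ε := ht.trans (Or.inr hm2)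
  have h5 := (mem_fimp.1 (hr ε (I ε) u (v ζ))) t htr
    ⟨(hk1 _ _).le, meets_of_mem hu, by
      rw [← hI]
      exact down_meets _ _ (hsv ζ) _ (ht.trans (Or.inr hm1))⟩
  obtain ⟨_, _, h5⟩ := h5
  have h5 : u ≤ v ζ := h5
  have h6 : m.ht ≤ u := by
    by_contra hcon
    rw [not_le] at hcon
    have h7 : t.f ε ∩ Iio u ⊆ Iio (r ε).ht := by
      rintro x ⟨hx, hx'⟩
      have h8 : x ∈ m.f ε := by
        rw [← le_f ht (hm2.D (hrD ε))]
        exact ⟨hx, hx'.trans hcon⟩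
      rw [hmf] at h8
      exact f_sub _ _ h8
    have h9 := otp_mono h7
    rw [hu.2.2, otp_Iio_le_Iio] at h9
    exact absurd (hk2 (i₀ ε) (r ε).ht) (not_lt.2 h9)
  rw [hm3] at h6
  exact absurd hα' (not_lt.2 (h6.trans h5))

theorem isScale_sc (hκ : ℵ₀ < κ) (hpow : ∀ μ < κ, κ ^ μ ≤ κ) (p : Cond κ) :
    p ∈ IsScale (sc (κ := κ)) := by
  have hreg := isRegular_of_pow hκ.le hpow
  refine ⟨fun ξ => ⟨isFun_sc hκ.le hreg ξ p, strictInc_sc ξ p⟩, fun ξ η => ?_, fun b => ?_⟩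
  · exact mem_fimp.2 fun q _ hlt => ⟨q, le_rfl, leStar_sc hκ hreg hlt q⟩
  · refine mem_fimp.2 fun q _ hb => ⟨q, le_rfl, mem_fex.2 fun r hr => ?_⟩
    exact unbounded_sc hκ hpow b r (down_IsFun b _ hb _ hr)

end Cond

end Pool.Agent.T2H97.KS
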