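import Mathlib
import Pool.Agent.T2H97.KS.Scale

set_option autoImplicit false

/-!
# The generic closed set, and its compactness
-/

namespace Pool.Agent.T2H97.KS

open Cardinal Set Pool.Agent.Helper669.KDelta Pool.Agent.Helper669.Forcing

section General

variable {P : Type} [Preorder P] {κ : Cardinal.{0}}

theorem mem_forr {φ ψ : Set P} {p : P} : p ∈ forr φ ψ ↔ ∀ q ≤ p, ∃ r ≤ q, r ∈ φ ∨ r ∈ ψ := by
  simp only [forr, fnot, fand, Set.mem_ofPred_eq, not_and_or, not_forall, not_not]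
  constructor
  · intro h q hq
    rcases h q hq with ⟨r, hr, h⟩ | ⟨r, hr, h⟩
    · exact ⟨r, hr, Or.inl h⟩
    · exact ⟨r, hr, Or.inr h⟩
  · intro h q hq
    obtain ⟨r, hr, h | h⟩ := h q hq
    · exact Or.inl ⟨r, hr, h⟩
    · exact Or.inr ⟨r, hr, h⟩

theorem down_fiff (φ ψ : Set P) : Down (fiff φ ψ) := down_fand (down_fimp _ _) (down_fimp _ _)

theorem down_Agree (y : Od κ → Set P) (δ : Od κ) (s : Set (Od κ)) : Down (Agree y δ s) :=
  down_fall fun _ => down_fimp _ _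

theorem down_InClosed (T : Od κ → Set (Od κ) → Set P) (y : Od κ → Set P) :
    Down (InClosed T y) := down_fall fun _ => down_fex _

theorem down_InOpen (T : Od κ → Set (Od κ) → Set P) (y : Od κ → Set P) :
    Down (InOpen T y) := down_fex _

theorem mem_Agree {y : Od κ → Set P} {δ : Od κ} {s : Set (Od κ)} {r : P} :
    r ∈ Agree y δ s ↔ ∀ β < δ, (β ∈ s → r ∈ meets (y β)) ∧ (β ∉ s → r ∈ fnot (meets (y β))) := by
  constructor
  · intro h β hβ
    refine ⟨fun hs => meets_of_dense fun q hq => ?_, fun hs q hq hm => ?_⟩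
    · obtain ⟨q1, hq1, h1⟩ := mem_fimp.1 (h β) q hq hβ
      obtain ⟨q2, hq2, h2⟩ := mem_fimp.1 h1.2 q1 le_rfl hs
      exact ⟨q2, hq2.trans hq1, h2⟩
    · obtain ⟨q1, hq1, h1⟩ := mem_fimp.1 (h β) q hq hβ
      obtain ⟨q2, _, h2⟩ := mem_fimp.1 h1.1 q1 le_rfl (down_meets _ _ hm q1 hq1)
      exact hs h2
  · intro h β
    refine mem_fimp.2 fun q hq hβ => ⟨q, le_rfl, mem_fimp.2 fun t ht hm => ⟨t, le_rfl, ?_⟩,
      mem_fimp.2 fun t ht hs => ⟨t, le_rfl, ?_⟩⟩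
    · by_contra hs
      exact (h β hβ).2 hs t (ht.trans hq) hm
    · exact down_meets _ _ ((h β hβ).1 hs) t (ht.trans hq)

theorem Agree.unique {y : Od κ → Set P} {δ δ' : Od κ} {s s' : Set (Od κ)} {r : P}
    (h : r ∈ Agree y δ s) (h' : r ∈ Agree y δ' s') (hle : δ ≤ δ') : s ∩ Iio δ = s' ∩ Iio δ := by
  ext β
  constructor
  · rintro ⟨hβ, hβ'⟩
    refine ⟨?_, hβ'⟩
    by_contra hcon
    exact (mem_Agree.1 h' β (lt_of_lt_of_le hβ' hle)).2 hcon r le_rfl
      ((mem_Agree.1 h β hβ').1 hβ)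
  · rintro ⟨hβ, hβ'⟩
    refine ⟨?_, hβ'⟩
    by_contra hcon
    exact (mem_Agree.1 h β hβ').2 hcon r le_rfl
      ((mem_Agree.1 h' β (lt_of_lt_of_le hβ' hle)).1 hβ)

theorem Agree.mono {y : Od κ → Set P} {δ γ : Od κ} {s s' : Set (Od κ)} {r : P}
    (h : r ∈ Agree y γ s) (hle : δ ≤ γ) (hs : s ∩ Iio δ = s' ∩ Iio δ) : r ∈ Agree y δ s' := by
  refine mem_Agree.2 fun β hβ => ?_
  have h1 : β ∈ s ↔ β ∈ s' := by
    constructor
    · intro h2
      have : β ∈ s ∩ Iio δ := ⟨h2, hβ⟩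
      rw [hs] at this
      exact this.1
    · intro h2
      have : β ∈ s' ∩ Iio δ := ⟨h2, hβ⟩
      rw [← hs] at this
      exact this.1
  rw [← h1]
  exact mem_Agree.1 h β (lt_of_lt_of_le hβ hle)

theorem exists_agree (hκ : ℵ₀ ≤ κ) (hP : DirectedClosed κ P) (p : P) (y : Od κ → Set P)
    (δ : Od κ) : ∃ q ≤ p, ∃ s ⊆ Iio δ, q ∈ Agree y δ s := by
  obtain ⟨q, hq, hq'⟩ := exists_decide_set hκ hP (Iio δ) (mk_Iio_lt δ) p y
  refine ⟨q, hq, {β | β < δ ∧ q ∈ meets (y β)}, fun β hβ => hβ.1, mem_Agree.2 fun β hβ => ?_⟩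
  refine ⟨fun h => h.2, fun h => ?_⟩
  rcases hq' β hβ with h1 | h1
  · exact absurd ⟨hβ, h1⟩ h
  · exact h1

/-- the name of a ground model set -/
def chk (s : Set (Od κ)) (β : Od κ) : Set P := {_p | β ∈ s}

theorem agree_chk (s : Set (Od κ)) (δ : Od κ) (r : P) : r ∈ Agree (chk s) δ s := by
  refine mem_Agree.2 fun β _ => ⟨fun h => meets_of_mem h, fun h q _ hm => ?_⟩
  obtain ⟨_, _, t, ht, _⟩ := hm q le_rfl
  exact h ht

theorem agree_chk_eq {s s' : Set (Od κ)} {δ : Od κ} {r : P}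
    (h : r ∈ Agree (P := P) (chk s) δ s') : s ∩ Iio δ = s' ∩ Iio δ :=
  Agree.unique (agree_chk s δ r) h le_rfl

/-- the closed set consisting of one ground model set -/
def single (s : Set (Od κ)) (δ : Od κ) (s' : Set (Od κ)) : Set P := {_p | s ∩ Iio δ = s' ∩ Iio δ}

theorem inClosed_single {s : Set (Od κ)} {y : Od κ → Set P} {r : P} :
    r ∈ InClosed (single s) y ↔ ∀ δ, r ∈ Agree y δ s := by
  constructor
  · intro h δ
    refine mem_Agree.2 fun β hβ => ⟨fun hs => meets_of_dense fun q hq => ?_,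
      fun hs q hq hm => ?_⟩
    · obtain ⟨q1, hq1, s', h1, h2⟩ := mem_fex.1 (h δ) q hq
      obtain ⟨_, _, t, ht, _⟩ := h1 q1 le_rfl
      have h3 := Agree.mono h2 le_rfl (show s' ∩ Iio δ = s ∩ Iio δ from (Eq.symm ht))
      exact ⟨q1, hq1, (mem_Agree.1 h3 β hβ).1 hs⟩
    · obtain ⟨q1, hq1, s', h1, h2⟩ := mem_fex.1 (h δ) q hq
      obtain ⟨_, _, t, ht, _⟩ := h1 q1 le_rfl
      have h3 := Agree.mono h2 le_rfl (show s' ∩ Iio δ = s ∩ Iio δ from (Eq.symm ht))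
      exact (mem_Agree.1 h3 β hβ).2 hs q1 le_rfl (down_meets _ _ hm q1 hq1)
  · intro h δ
    exact mem_fex_of_mem s (down_fand (down_meets _) (down_Agree _ _ _))
      ⟨meets_of_mem rfl, h δ⟩

theorem kcompact_single (hκ : ℵ₀ < κ) (s : Set (Od κ)) (p : P) :
    p ∈ KCompact (single (P := P) s) := by
  intro U
  refine mem_fimp.2 fun q _ hU => ?_
  have h1 : q ∈ InClosed (single s) (chk s) :=
    inClosed_single.2 fun δ => agree_chk s δ q
  obtain ⟨q1, hq1, h2⟩ := mem_fimp.1 (hU (chk s)) q le_rfl h1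
  obtain ⟨q2, hq2, δ, h3⟩ := mem_fex.1 h2 q1 le_rfl
  obtain ⟨q3, hq3, s', h4, h5⟩ := mem_fex.1 h3 q2 le_rfl
  have h6 := agree_chk_eq h5
  have hW : #({(δ, s')} : Set (Od κ × Set (Od κ))) < κ := by
    rw [mk_singleton]
    exact one_lt_aleph0.trans hκ
  refine ⟨q3, (hq3.trans hq2).trans hq1, mem_fex_of_mem ⟨{(δ, s')}, hW⟩ ?_ ⟨?_, ?_⟩⟩
  · exact down_fand (down_fall fun _ => down_meets _)
      (down_fall fun _ => down_fimp _ _)
  · rintro ⟨w, hw⟩
    rw [mem_singleton_iff] at hw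
    subst hw
    exact h4
  · intro y
    refine mem_fimp.2 fun t _ hy => ⟨t, le_rfl, ?_⟩
    have h7 := inClosed_single.1 hy δ
    refine mem_fex_of_mem (⟨(δ, s'), rfl⟩ : ({(δ, s')} : Set (Od κ × Set (Od κ)))) ?_ ?_
    · exact down_Agree _ _ _
    · exact Agree.mono h7 le_rfl h6

end General

namespace Cond

variable {κ : Cardinal.{0}}

/-- the name of the generic tree -/
def tr (δ : Od κ) (s : Set (Od κ)) : Set (Cond κ) := {q | s ∈ q.lev δ}

theorem down_tr (δ : Od κ) (s : Set (Od κ)) : Down (tr δ s) := by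
  intro p hp q hq
  change s ∈ q.lev δ
  rw [le_lev hq (ht_of_mem hp)]
  exact hp

theorem mem_of_tr {q : Cond κ} {δ : Od κ} {s : Set (Od κ)} (h : q ∈ meets (tr δ s))
    (hδ : δ ≤ q.ht) : s ∈ q.lev δ := by
  obtain ⟨r, hr, hr'⟩ := exists_of_meets (down_tr _ _) h
  rw [← le_lev hr hδ]
  exact hr'

/-- the name of the range of an element of the scale -/
def rng (ξ : Od (Order.succ κ)) (β : Od κ) : Set (Cond κ) := {q | ξ ∈ q.D ∧ β ∈ q.f ξ}

theorem down_rng (ξ : Od (Order.succ κ)) (β : Od κ) : Down (rng ξ β) := by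
  rintro p ⟨h1, h2⟩ q hq
  exact ⟨le_D hq h1, (f_of_le hq h1 (f_sub _ _ h2)).1.2 h2⟩

theorem agree_rng {q : Cond κ} {ξ : Od (Order.succ κ)} (hξ : ξ ∈ q.D) {δ : Od κ}
    (hδ : δ ≤ q.ht) : q ∈ Agree (rng (κ := κ) ξ) δ (q.f ξ) := by
  refine mem_Agree.2 fun β hβ => ⟨fun h => meets_of_mem ⟨hξ, h⟩, fun h r hr hm => ?_⟩
  obtain ⟨t, ht, _, h1⟩ := exists_of_meets (down_rng _ _) hm
  exact h ((f_of_le (ht.trans hr) hξ (hβ.trans_le hδ)).1.1 h1)

theorem inClosed_rng (hreg : κ.IsRegular) (ξ : Od (Order.succ κ)) (p : Cond κ) :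
    p ∈ InClosed (tr (κ := κ)) (rng ξ) := by
  intro δ
  refine mem_fex.2 fun q _ => ?_
  obtain ⟨q1, hq1, hξ⟩ := exists_D hreg q ξ
  obtain ⟨q2, hq2, _, hδ, _⟩ := exists_ht hreg q1 δ
  refine ⟨q2, hq2.trans hq1, q2.f ξ ∩ Iio δ, meets_of_mem ?_, ?_⟩
  · exact q2.lev_coh _ _ hδ.le _ (q2.f_top ξ (le_D hq2 hξ))
  · refine Agree.mono (agree_rng (le_D hq2 hξ) hδ.le) le_rfl ?_
    rw [inter_assoc, inter_self]

theorem inClosed_chk (hreg : κ.IsRegular) {q : Cond κ} {s : Set (Od κ)} (hs : s ∈ q.lev q.ht) :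
    q ∈ InClosed (tr (κ := κ)) (chk s) := by
  intro δ
  refine mem_fex.2 fun r hr => ?_
  obtain ⟨q2, hq2, _, hδ, _⟩ := exists_ht hreg r δ
  have h1 : s ∈ q2.lev q2.ht := by
    refine q2.lev_ext _ _ (le_ht (hq2.trans hr)) le_rfl s ?_
    rw [le_lev (hq2.trans hr) le_rfl]
    exact hs
  refine ⟨q2, hq2, s ∩ Iio δ, meets_of_mem ?_, ?_⟩
  · exact q2.lev_coh _ _ hδ.le _ h1
  · refine Agree.mono (agree_chk s δ q2) le_rfl ?_
    rw [inter_assoc, inter_self]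

/-- The generic closed set is compact. -/
theorem kcompact_tr (hκ : ℵ₀ < κ) (hreg : κ.IsRegular) (p : Cond κ) :
    p ∈ KCompact (tr (κ := κ)) := by
  intro U
  refine mem_fimp.2 fun q _ hU => ?_
  have hopen : ∀ r ≤ q, ∀ y, r ∈ InClosed (tr (κ := κ)) y → ∃ t ≤ r, ∃ δ s,
      t ∈ meets (U δ s) ∧ t ∈ Agree y δ s := by
    intro r hr y hy
    obtain ⟨q1, hq1, h2⟩ := mem_fimp.1 (hU y) r hr hy
    obtain ⟨q2, hq2, δ, h3⟩ := mem_fex.1 h2 q1 le_rfl
    obtain ⟨q3, hq3, s', h4, h5⟩ := mem_fex.1 h3 q2 le_rfl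
    exact ⟨q3, (hq3.trans hq2).trans hq1, δ, s', h4, h5⟩
  obtain ⟨m, hm, hm'⟩ := sealing hκ hreg
    (fun r γ s => ∃ δ s', δ ≤ γ ∧ r ∈ meets (U δ s') ∧ s ∩ Iio δ = s' ∩ Iio δ)
    (by
      rintro p q γ β s s' ⟨δ, t, h1, h2, h3⟩ hq hγ hs
      refine ⟨δ, t, h1.trans hγ, down_meets _ _ h2 q hq, ?_⟩
      rw [← h3, ← hs, inter_assoc, inter_eq_right.2 (Iio_subset_Iio h1)])
    q
    (by
      intro r hr ξ hξ
      obtain ⟨t, ht, δ, s, h1, h2⟩ := hopen r hr (rng ξ) (inClosed_rng hreg ξ r)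
      obtain ⟨t', ht', _, hδ, _⟩ := exists_ht hreg t δ
      refine ⟨t', ht'.trans ht, δ, s, hδ.le, down_meets _ _ h1 _ ht', ?_⟩
      exact Agree.unique (agree_rng (le_D (ht'.trans ht) hξ) le_rfl |> fun h =>
        Agree.mono h hδ.le rfl) (down_Agree _ _ _ _ h2 _ ht') le_rfl)
    (by
      intro r hr s hs
      obtain ⟨t, ht, δ, s', h1, h2⟩ := hopen r hr (chk s) (inClosed_chk hreg hs)
      obtain ⟨t', ht', _, hδ, _⟩ := exists_ht hreg t δ
      exact ⟨t', ht'.trans ht, δ, s', hδ.le, down_meets _ _ h1 _ ht', agree_chk_eq h2⟩)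
  have hne : Nonempty (Od κ) := ⟨m.ht⟩
  choose! d e hd1 hd2 hd3 using hm'
  have hW : #((fun s => (d s, e s)) '' (m.lev m.ht) : Set (Od κ × Set (Od κ))) < κ :=
    lt_image _ (m.small_lev _)
  refine ⟨m, hm, mem_fex_of_mem ⟨_, hW⟩ ?_ ⟨?_, ?_⟩⟩
  · exact down_fand (down_fall fun _ => down_meets _)
      (down_fall fun _ => down_fimp _ _)
  · rintro ⟨_, s, hs, rfl⟩
    exact hd2 s hs
  · intro y
    refine mem_fimp.2 fun t ht hy => ?_
    obtain ⟨t1, ht1, s, h1, h2⟩ := mem_fex.1 (hy m.ht) t le_rfl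
    have h3 : s ∈ m.lev m.ht := by
      have h4 := mem_of_tr h1 (le_ht (ht1.trans ht))
      rwa [le_lev (ht1.trans ht) le_rfl] at h4
    refine ⟨t1, ht1, ?_⟩
    refine mem_fex_of_mem (⟨(d s, e s), s, h3, rfl⟩ :
      ((fun s => (d s, e s)) '' (m.lev m.ht) : Set (Od κ × Set (Od κ)))) ?_ ?_
    · exact down_Agree _ _ _
    · exact Agree.mono h2 (hd1 s h3) (hd3 s h3)

/-- The points of the generic closed set are ranges of elements of the scale or bounded. -/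
theorem branch (hκ : ℵ₀ < κ) (hreg : κ.IsRegular) (y : Od κ → Set (Cond κ)) (p : Cond κ)
    (hp : p ∈ InClosed (tr (κ := κ)) y) :
    p ∈ forr (fex fun ξ => IsRange (sc (κ := κ) ξ) y) (Bdd y) := by
  refine mem_forr.2 fun q hq => ?_
  by_contra hcon
  push Not at hcon
  obtain ⟨m, hm, hm'⟩ := sealing hκ hreg
    (fun r γ s => ∃ β < γ, (β ∈ s ∧ r ∈ fnot (meets (y β))) ∨ (β ∉ s ∧ r ∈ meets (y β)))
    (by
      rintro p q γ β s s' ⟨δ, h1, h2⟩ hq hγ hs
      have h3 : δ ∈ s ↔ δ ∈ s' := by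
        rw [← hs]
        exact ⟨fun h => h.1, fun h => ⟨h, h1⟩⟩
      refine ⟨δ, h1.trans_le hγ, ?_⟩
      rw [← h3]
      rcases h2 with ⟨h2, h4⟩ | ⟨h2, h4⟩
      · exact Or.inl ⟨h2, down_fnot _ _ h4 _ hq⟩
      · exact Or.inr ⟨h2, down_meets _ _ h4 _ hq⟩)
    q
    (by
      intro r hr ξ hξ
      have h1 : r ∉ IsRange (sc (κ := κ) ξ) y := by
        intro h
        exact (hcon r hr).1 (mem_fex_of_mem ξ (down_fall fun _ => down_fiff _ _) h)
      change ¬ ∀ β, r ∈ fiff (meets (y β)) (fex fun i => meets (sc ξ i β)) at h1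
      rw [not_forall] at h1
      obtain ⟨β, h1⟩ := h1
      change ¬ (r ∈ fimp (meets (y β)) (fex fun i => meets (sc ξ i β)) ∧
        r ∈ fimp (fex fun i => meets (sc ξ i β)) (meets (y β))) at h1
      rw [mem_fimp, mem_fimp, not_and_or] at h1
      push Not at h1
      rcases h1 with ⟨r1, hr1, h2, h3⟩ | ⟨r1, hr1, h2, h3⟩
      · obtain ⟨r2, hr2, _, hβ, _⟩ := exists_ht hreg r1 β
        refine ⟨r2, hr2.trans hr1, β, hβ, Or.inr ⟨fun hmem => ?_, down_meets _ _ h2 _ hr2⟩⟩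
        obtain ⟨i, hi⟩ := exists_otp_Iio (κ := κ) (o := otp (r2.f ξ ∩ Iio β))
          ((otp_mono inter_subset_right).trans_lt (otp_Iio_lt β))
        exact h3 r2 hr2 (mem_fex_of_mem i (down_meets _)
          (meets_of_mem ⟨le_D (hr2.trans hr1) hξ, hmem, hi.symm⟩))
      · obtain ⟨r2, hr2, i, h4⟩ := mem_fex.1 h2 r1 le_rfl
        obtain ⟨r3, hr3, h5⟩ := exists_of_meets (down_sc _ _ _) h4
        refine ⟨r3, (hr3.trans hr2).trans hr1, β, f_sub _ _ h5.2.1, Or.inl ⟨h5.2.1, ?_⟩⟩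
        intro t ht
        exact h3 t ((ht.trans hr3).trans hr2))
    (by
      intro r hr s hs
      have h1 := (hcon r hr).2
      have h2 : r ∉ fall fun β : Od κ => fimp (meets (y β)) (fground (β < r.ht)) := by
        intro h
        exact h1 (mem_fex_of_mem r.ht (down_fall fun _ => down_fimp _ _) h)
      change ¬ ∀ β, r ∈ fimp (meets (y β)) (fground (β < r.ht)) at h2
      rw [not_forall] at h2
      obtain ⟨β, h2⟩ := h2
      rw [mem_fimp] at h2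
      push Not at h2
      obtain ⟨r1, hr1, h3, h4⟩ := h2
      have h5 : r.ht ≤ β := not_lt.1 (h4 r1 le_rfl)
      obtain ⟨r2, hr2, _, hβ, _⟩ := exists_ht hreg r1 β
      refine ⟨r2, hr2.trans hr1, β, hβ, Or.inr ⟨fun hmem => ?_, down_meets _ _ h3 _ hr2⟩⟩
      exact absurd (r.lev_sub _ _ hs hmem) (not_lt.2 h5))
  have hmp := down_InClosed _ _ _ hp m (hm.trans hq)
  obtain ⟨t, ht, s, h1, h2⟩ := mem_fex.1 (hmp m.ht) m le_rfl
  have h3 : s ∈ m.lev m.ht := by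
    have h4 := mem_of_tr h1 (le_ht ht)
    rwa [le_lev ht le_rfl] at h4
  obtain ⟨β, hβ, h4⟩ := hm' s h3
  rcases h4 with ⟨h4, h5⟩ | ⟨h4, h5⟩
  · exact h5 t ht ((mem_Agree.1 h2 β hβ).1 h4)
  · exact (mem_Agree.1 h2 β hβ).2 h4 t le_rfl (down_meets _ _ h5 t ht)

/-- The ranges of elements of the scale are in the generic closed set. -/
theorem inClosed_of_isRange (hreg : κ.IsRegular) (ξ : Od (Order.succ κ))
    (y : Od κ → Set (Cond κ)) (p : Cond κ) (hp : p ∈ IsRange (sc (κ := κ) ξ) y) :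
    p ∈ InClosed (tr (κ := κ)) y := by
  intro δ
  refine mem_fex.2 fun q hq => ?_
  obtain ⟨q1, hq1, hξ⟩ := exists_D hreg q ξ
  obtain ⟨q2, hq2, _, hδ, _⟩ := exists_ht hreg q1 δ
  have hξ2 := le_D hq2 hξ
  refine ⟨q2, hq2.trans hq1, q2.f ξ ∩ Iio δ, meets_of_mem ?_, mem_Agree.2 fun β hβ => ⟨?_, ?_⟩⟩
  · exact q2.lev_coh _ _ hδ.le _ (q2.f_top ξ hξ2)
  · rintro ⟨hmem, _⟩
    refine meets_of_dense fun r hr => ?_
    obtain ⟨i, hi⟩ := exists_otp_Iio (κ := κ) (o := otp (q2.f ξ ∩ Iio β))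
      ((otp_mono inter_subset_right).trans_lt (otp_Iio_lt β))
    have h1 : r ∈ fex fun i => meets (sc ξ i β) :=
      mem_fex_of_mem i (down_meets _) (meets_of_le ⟨hξ2, hmem, hi.symm⟩ hr)
    exact mem_fimp.1 (hp β).2 r (((hr.trans hq2).trans hq1).trans hq) h1
  · intro hmem r hr hm
    obtain ⟨r1, hr1, h1⟩ := mem_fimp.1 (hp β).1 r (((hr.trans hq2).trans hq1).trans hq) hm
    obtain ⟨r2, hr2, i, h2⟩ := mem_fex.1 h1 r1 le_rfl
    obtain ⟨r3, hr3, h3⟩ := exists_of_meets (down_sc _ _ _) h2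
    have h4 := (f_of_le (((hr3.trans hr2).trans hr1).trans hr) hξ2 (hβ.trans hδ)).1.1 h3.2.1
    exact hmem ⟨h4, hβ⟩

/-- The set of the ranges of elements of the scale and all bounded sets is the union of `κ` many
`κ`-compact sets. -/
theorem isKKappa_sc (hκ : ℵ₀ < κ) (hpow : ∀ μ < κ, κ ^ μ ≤ κ) (p : Cond κ) :
    p ∈ IsKKappa (sc (κ := κ)) := by
  classical
  have hreg := isRegular_of_pow hκ.le hpow
  let B : Set (Set (Od κ)) := {s | #s < κ}
  have hB : #B ≤ κ := mk_small_subsets hκ.le hpow (mk_Od κ).le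
  have hOB : #(Option B) ≤ #(Od κ) := by
    rw [mk_option, mk_Od]
    exact (add_le_add hB (one_le_aleph0.trans hκ.le)).trans (add_eq_self hκ.le).le
  obtain ⟨g⟩ := hOB
  let E : Od κ → Option B := Function.invFun g
  have hE : ∀ o, ∃ i, E i = o := fun o => ⟨g o, Function.leftInverse_invFun g.injective o⟩
  let T : Od κ → Od κ → Set (Od κ) → Set (Cond κ) := fun i =>
    match E i with
    | none => tr
    | some s => single s.1
  have hT1 : ∀ i, E i = none → T i = tr := by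
    intro i hi
    simp only [T]
    rw [hi]
  have hT2 : ∀ i s, E i = some s → T i = single s.1 := by
    intro i s hi
    simp only [T]
    rw [hi]
  refine mem_fex_of_mem T ?_ ⟨?_, ?_⟩
  · exact down_fand (down_fall fun _ => down_fall fun _ => down_fimp _ _)
      (down_fall fun _ => down_fiff _ _)
  · intro i
    change p ∈ KCompact (T i)
    rcases h : E i with _ | s
    · rw [hT1 i h]
      exact kcompact_tr hκ hreg p
    · rw [hT2 i s h]
      exact kcompact_single hκ _ p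
  · intro y
    refine ⟨mem_fimp.2 fun q _ hq => ?_, mem_fimp.2 fun q _ hq => ?_⟩
    · obtain ⟨r, hr, i, hi⟩ := mem_fex.1 hq q le_rfl
      refine ⟨r, hr, ?_⟩
      rcases h : E i with _ | s
      · rw [hT1 i h] at hi
        exact branch hκ hreg y r hi
      · rw [hT2 i s h, inClosed_single] at hi
        refine mem_forr.2 fun t ht => ⟨t, le_rfl, Or.inr ?_⟩
        obtain ⟨z, hz⟩ := exists_bound hreg s.1 s.2
        refine mem_fex_of_mem z (down_fall fun _ => down_fimp _ _) fun β => ?_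
        refine mem_fimp.2 fun t' ht' hm => ⟨t', le_rfl, ?_⟩
        by_contra hcon
        have hβ : β ∉ s.1 := fun h => hcon (hz β h)
        obtain ⟨δ, hδ⟩ := exists_gt hreg β
        exact (mem_Agree.1 (hi δ) β hδ).2 hβ t' (ht'.trans ht) hm
    · obtain ⟨r, hr, h | h⟩ := mem_forr.1 hq q le_rfl
      · obtain ⟨t, ht, ξ, hξ⟩ := mem_fex.1 h r le_rfl
        obtain ⟨i, hi⟩ := hE none
        refine ⟨t, ht.trans hr, mem_fex_of_mem i (down_InClosed _ _) ?_⟩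
        rw [hT1 i hi]
        exact inClosed_of_isRange hreg ξ y t hξ
      · obtain ⟨t, ht, δ, hδ⟩ := mem_fex.1 h r le_rfl
        obtain ⟨t1, ht1, s, hs, hst⟩ := exists_agree hκ.le (directedClosed hreg) t y δ
        obtain ⟨i, hi⟩ := hE (some ⟨s, lt_mono hs (mk_Iio_lt δ)⟩)
        refine ⟨t1, (ht1.trans ht).trans hr, mem_fex_of_mem i (down_InClosed _ _) ?_⟩
        rw [hT2 i _ hi, inClosed_single]
        intro δ'
        refine mem_Agree.2 fun β _ => ?_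
        rcases lt_or_ge β δ with h1 | h1
        · exact mem_Agree.1 hst β h1
        · refine ⟨fun h2 => absurd (hs h2) (not_lt.2 h1), fun _ t2 ht2 hm => ?_⟩
          obtain ⟨t3, _, h3⟩ := mem_fimp.1 (hδ β) t2 (ht2.trans ht1) hm
          exact absurd h3 (not_lt.2 h1)

end Cond

end Pool.Agent.T2H97.KS
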