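import Mathlib
import Pool.Agent.T2H97.KS.Compact

set_option autoImplicit false

/-!
# The extension: cardinals and the bounding number
-/

namespace Pool.Agent.T2H97.KS

open Cardinal Set Pool.Agent.Helper669.KDelta Pool.Agent.Helper669.Forcing Pool.Agent.T2H97.EDM

section Phi

variable {κ : Cardinal.{0}}

open Classical in
/-- A strictly increasing function above all functions `g j`. -/
noncomputable def Phi (g : Od κ → Od κ → Od κ) : Od κ → Od κ :=
  wellFounded_lt.fix fun i prev =>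
    if h : {u : Od κ | (∀ j ≤ i, g j i ≤ u) ∧ ∀ (k : Od κ) (hk : k < i), prev k hk < u}.Nonempty
    then wellFounded_lt.min _ h else i

open Classical in
theorem Phi_eq (g : Od κ → Od κ → Od κ) (i : Od κ) : Phi g i =
    if h : {u : Od κ | (∀ j ≤ i, g j i ≤ u) ∧ ∀ k < i, Phi g k < u}.Nonempty
    then wellFounded_lt.min _ h else i := by
  unfold Phi
  rw [WellFounded.fix_eq]

theorem Phi_spec (hreg : κ.IsRegular) (g : Od κ → Od κ → Od κ) (i : Od κ) :
    (∀ j ≤ i, g j i ≤ Phi g i) ∧ ∀ k < i, Phi g k < Phi g i := by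
  have hne : {u : Od κ | (∀ j ≤ i, g j i ≤ u) ∧ ∀ k < i, Phi g k < u}.Nonempty := by
    obtain ⟨z, hz⟩ := exists_bound hreg ((fun j => g j i) '' Iic i ∪ Phi g '' Iio i)
      (lt_union hreg (lt_image _ (mk_Iic_lt hreg i)) (lt_image _ (mk_Iio_lt i)))
    exact ⟨z, fun j hj => (hz _ (Or.inl ⟨j, hj, rfl⟩)).le, fun k hk => hz _ (Or.inr ⟨k, hk, rfl⟩)⟩
  have h1 := wellFounded_lt.min_mem _ hne
  rw [Phi_eq g i, dif_pos hne]
  exact h1

theorem Phi_congr (g g' : Od κ → Od κ → Od κ) (i : Od κ)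
    (h : ∀ j ≤ i, ∀ k ≤ i, g j k = g' j k) : Phi g i = Phi g' i := by
  classical
  induction i using WellFoundedLT.induction with
  | _ i ih =>
    have h1 : {u : Od κ | (∀ j ≤ i, g j i ≤ u) ∧ ∀ k < i, Phi g k < u} =
        {u : Od κ | (∀ j ≤ i, g' j i ≤ u) ∧ ∀ k < i, Phi g' k < u} := by
      ext u
      constructor
      · rintro ⟨h2, h3⟩
        refine ⟨fun j hj => ?_, fun k hk => ?_⟩
        · rw [← h j hj i le_rfl]
          exact h2 j hj
        · rw [← ih k hk fun j hj l hl => h j (hj.trans hk.le) l (hl.trans hk.le)]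
          exact h3 k hk
      · rintro ⟨h2, h3⟩
        refine ⟨fun j hj => ?_, fun k hk => ?_⟩
        · rw [h j hj i le_rfl]
          exact h2 j hj
        · rw [ih k hk fun j hj l hl => h j (hj.trans hk.le) l (hl.trans hk.le)]
          exact h3 k hk
    have h4 : ∀ S S' : Set (Od κ), S = S' →
        (if h : S.Nonempty then wellFounded_lt.min S h else i) =
          if h : S'.Nonempty then wellFounded_lt.min S' h else i := by
      rintro S _ rfl
      rfl
    rw [Phi_eq, Phi_eq]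
    exact h4 _ _ h1

end Phi

section General

variable {κ : Cardinal.{0}} {P : Type} [Preorder P]

theorem staysRegular (hreg : κ.IsRegular) (hP : DirectedClosed κ P) (p : P) :
    p ∈ StaysRegular κ P := by
  intro μ hμ q _ hq
  obtain ⟨r, _, R, hR1, hR2⟩ := mem_fex.1 hq q le_rfl
  have hμ' : #μ.out < κ := by rwa [mk_out]
  obtain ⟨s, hs, f, hf⟩ := exists_decide hreg.aleph0_le hP hμ' r R hR1
  obtain ⟨z, hz⟩ := exists_bound_range hreg hμ' f
  obtain ⟨u, hu, i, hi⟩ := mem_fex.1 (hR2 z) s hs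
  obtain ⟨v, hv, y, hy1, hy2⟩ := mem_fex.1 hi u le_rfl
  have h3 := down_meets _ _ (hf i) v (hv.trans hu)
  have h4 := IsFun.unique (down_IsFun R _ hR1 v ((hv.trans hu).trans hs)) h3 hy2
  rw [← h4] at hy1
  exact absurd hy1 (not_le.2 (hz i))

theorem staysCardinal_of_le (hreg : κ.IsRegular) (hP : DirectedClosed κ P) (ν : Cardinal.{0})
    (hν : ν ≤ κ) (p : P) : p ∈ StaysCardinal P ν := by
  intro μ hμ q _ hq
  obtain ⟨r, _, R, hR1, hR2⟩ := mem_fex.1 hq q le_rfl
  have hμ' : #μ.out < κ := by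
    rw [mk_out]
    exact hμ.trans_le hν
  obtain ⟨s, hs, f, hf⟩ := exists_decide hreg.aleph0_le hP hμ' r R hR1
  have h1 : ∃ z, z ∉ range f := by
    by_contra hcon
    push Not at hcon
    have h2 : #ν.out ≤ #μ.out := mk_le_of_surjective (f := f) hcon
    rw [mk_out, mk_out] at h2
    exact absurd h2 (not_le.2 hμ)
  obtain ⟨z, hz⟩ := h1
  obtain ⟨u, hu, x, hx⟩ := mem_fex.1 (hR2 z) s hs
  have h3 := down_meets _ _ (hf x) u hu
  exact hz ⟨x, IsFun.unique (down_IsFun R _ hR1 u (hu.trans hs)) h3 hx⟩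

theorem boundingGt (hreg : κ.IsRegular) (hP : DirectedClosed κ P) (p : P) :
    p ∈ BoundingGt κ P := by
  classical
  intro F
  refine mem_fimp.2 fun q _ hF => ?_
  let b : Od κ → Od κ → Set P := fun i v =>
    {r | r ≤ q ∧ ∃ g : Od κ → Od κ → Od κ, (∀ j ≤ i, ∀ k ≤ i, r ∈ meets (F j k (g j k))) ∧
      v = Phi g i}
  have hb : ∀ i v, Down (b i v) := by
    rintro i v r ⟨h1, g, h2, h3⟩ r' hr'
    exact ⟨hr'.trans h1, g, fun j hj k hk => down_meets _ _ (h2 j hj k hk) _ hr', h3⟩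
  have key : ∀ r ≤ q, ∀ i : Od κ, ∀ g g' : Od κ → Od κ → Od κ,
      (∀ j ≤ i, ∀ k ≤ i, r ∈ meets (F j k (g j k))) →
      (∀ j ≤ i, ∀ k ≤ i, r ∈ meets (F j k (g' j k))) → ∀ j ≤ i, ∀ k ≤ i, g j k = g' j k := by
    intro r hr i g g' h1 h2 j hj k hk
    exact IsFun.unique (down_IsFun _ _ (hF j) r hr) (h1 j hj k hk) (h2 j hj k hk)
  refine ⟨q, le_rfl, mem_fex_of_mem b ?_ ⟨⟨fun i => mem_fex.2 fun r hr => ?_, fun i u v =>
    mem_fimp.2 fun r hr hr' => ?_⟩, ?_, fun j => mem_fex_of_mem j ?_ fun i u v =>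
      mem_fimp.2 fun r hr hr' => ?_⟩⟩
  · refine down_fand (down_IsFun _) (down_fand (down_fall fun _ => down_fall fun _ =>
      down_fall fun _ => down_fall fun _ => down_fimp _ _) (down_fall fun _ => down_fex _))
  · have hsmall : #(Iic i × Iic i) < κ := by
      simp only [mk_prod, lift_id]
      exact mul_lt_of_lt hreg.aleph0_le (mk_Iic_lt hreg i) (mk_Iic_lt hreg i)
    obtain ⟨t, ht, ht'⟩ := exists_all hreg.aleph0_le hP hsmall r
      (fun x => {t | ∃ u, t ∈ meets (F x.1.1 x.2.1 u)})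
      (fun x t ht t' ht' => by
        obtain ⟨u, hu⟩ := ht
        exact ⟨u, down_meets _ _ hu _ ht'⟩)
      (fun x t ht => by
        obtain ⟨t', h1, u, h2⟩ := IsFun.total (down_IsFun _ _ (hF x.1.1) t (ht.trans hr)) x.2.1
        exact ⟨t', h1, u, h2⟩)
    choose g hg using ht'
    let g' : Od κ → Od κ → Od κ := fun j k =>
      if h : j ≤ i ∧ k ≤ i then g (⟨j, h.1⟩, ⟨k, h.2⟩) else i
    refine ⟨t, ht, Phi g' i, meets_of_mem ⟨ht.trans hr, g', fun j hj k hk => ?_, rfl⟩⟩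
    have : g' j k = g (⟨j, hj⟩, ⟨k, hk⟩) := dif_pos ⟨hj, hk⟩
    rw [this]
    exact hg (⟨j, hj⟩, ⟨k, hk⟩)
  · obtain ⟨t, ht, ⟨h1, g, h2, rfl⟩, ⟨_, g', h3, rfl⟩⟩ := exists_both (hb _ _) (hb _ _) hr'.1 hr'.2
    exact ⟨t, ht, Phi_congr _ _ _ (key t h1 i g g' h2 h3)⟩
  · intro i j u v
    refine mem_fimp.2 fun r hr hr' => ?_
    obtain ⟨t, ht, ⟨h1, g, h2, rfl⟩, ⟨_, g', h3, rfl⟩⟩ :=
      exists_both (hb _ _) (hb _ _) hr'.2.1 hr'.2.2
    refine ⟨t, ht, ?_⟩
    have hij : i < j := hr'.1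
    have h4 : Phi g i = Phi g' i := Phi_congr _ _ _ (key t h1 i g g' h2
      fun l hl k hk => h3 l (hl.trans hij.le) k (hk.trans hij.le))
    change Phi g i < Phi g' j
    rw [h4]
    exact (Phi_spec hreg g' j).2 i hij
  · exact down_fall fun _ => down_fall fun _ => down_fall fun _ => down_fimp _ _
  · obtain ⟨t, ht, h1, g, h2, rfl⟩ := exists_of_meets (hb _ _) hr'.2.2
    have hij : j ≤ i := hr'.1
    refine ⟨t, ht, ?_⟩
    have h3 := IsFun.unique (down_IsFun _ _ (hF j) t h1)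
      (down_meets _ _ hr'.2.1 t ht) (h2 j hij i le_rfl)
    change u ≤ Phi g i
    rw [h3]
    exact (Phi_spec hreg g i).1 j hij

end General

namespace Cond

variable {κ : Cardinal.{0}}

theorem fiber_large {X Y : Type} {c : Cardinal.{0}} (hc : ℵ₀ ≤ c) (f : X → Y) (hY : #Y < #X)
    (hX : c < #X) : ∃ y, ¬ #(f ⁻¹' {y} : Set X) ≤ c := by
  by_contra hcon
  push Not at hcon
  have h := small_iUnion (c := max #Y c) (hc.trans (le_max_right _ _))
    (le_max_left _ _) (fun y => f ⁻¹' {y}) (fun y => (hcon y).trans (le_max_right _ _))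
  have h2 : (⋃ y, f ⁻¹' {y}) = (univ : Set X) := by
    ext e
    simp
  rw [h2, mk_univ] at h
  exact absurd h (not_le.2 (max_lt hY hX))

theorem staysCardinal_of_lt (hκ : ℵ₀ ≤ κ) (hpow : ∀ μ < κ, κ ^ μ ≤ κ) (ν : Cardinal.{0})
    (hν : κ < ν) (p : Cond κ) : p ∈ StaysCardinal (Cond κ) ν := by
  intro μ hμ q _ hq
  obtain ⟨r, _, R, hR1, hR2⟩ := mem_fex.1 hq q le_rfl
  have h1 : ∀ y, ∃ x, ∃ s ≤ r, s ∈ meets (R x y) := by
    intro y
    obtain ⟨s, hs, x, hx⟩ := mem_fex.1 (hR2 y) r le_rfl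
    exact ⟨x, s, hs, hx⟩
  choose x s hs hsx using h1
  obtain ⟨x0, hx0⟩ := fiber_large hκ x (by rwa [mk_out, mk_out]) (by rwa [mk_out])
  obtain ⟨e, e', hne, u, hu, hu'⟩ := exists_compatible hκ hpow hx0 (fun y => s y.1)
  have he : x e.1 = x0 := e.2
  have he' : x e'.1 = x0 := e'.2
  have hur := down_IsFun R _ hR1 u (hu.trans (hs _))
  have h2 := down_meets _ _ (hsx e.1) u hu
  have h3 := down_meets _ _ (hsx e'.1) u hu'
  rw [he] at h2
  rw [he'] at h3
  exact hne (Subtype.ext (IsFun.unique hur h2 h3))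

theorem nonempty_cond (hreg : κ.IsRegular) : Nonempty (Cond κ) := by
  have hne : (univ : Set (Od κ)).Nonempty := by
    have : Nonempty (Od κ) := by
      rw [← mk_ne_zero_iff, mk_Od]
      exact hreg.pos.ne'
    exact univ_nonempty
  let o : Od κ := wellFounded_lt.min univ hne
  have ho : ∀ x : Od κ, o ≤ x := fun x => not_lt.1 (wellFounded_lt.not_lt_min univ (mem_univ x))
  have hs : #({∅} : Set (Set (Od κ))) < κ := by
    rw [mk_singleton]
    exact one_lt_aleph0.trans_le hreg.aleph0_le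
  refine ⟨{
    ht := o
    lev := fun β => {s | β = o ∧ s = ∅}
    D := ∅
    f := fun _ => ∅
    lev_sub := ?_, lev_out := ?_, lev_coh := ?_, lev_ext := ?_, lev_empty := ?_
    f_top := ?_, f_out := ?_, top := ?_, small_D := ?_, small_lev := ?_ }⟩
  · rintro β s ⟨_, rfl⟩
    exact empty_subset _
  · intro β hβ
    ext s
    simp only [mem_ofPred_eq, mem_empty_iff_false, iff_false, not_and]
    intro h
    exact absurd h hβ.ne'
  · rintro β γ hγ s ⟨rfl, rfl⟩
    exact ⟨le_antisymm hγ (ho _), empty_inter _⟩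
  · rintro γ β hγ hβ s ⟨rfl, rfl⟩
    exact ⟨le_antisymm hβ hγ, rfl⟩
  · intro β hβ
    exact ⟨le_antisymm hβ (ho _), rfl⟩
  · intro ξ hξ
    exact absurd hξ (notMem_empty _)
  · intro ξ _
    rfl
  · rintro s ⟨_, rfl⟩ h _
    exact absurd h not_nonempty_empty
  · rw [mk_eq_zero]
    exact hreg.pos
  · intro β
    exact lt_mono (fun s hs => hs.2) hs

end Cond

/-- the main theorem -/
theorem exists_forcing (κ : Cardinal.{0}) (hκ : ℵ₀ < κ) (hpow : ∀ μ < κ, κ ^ μ ≤ κ) :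
    ∃ (P : Type) (_ : Preorder P), Nonempty P ∧ DirectedClosed κ P ∧ ChainCondition κ P ∧
      ∀ p : P, (∀ ν : Cardinal.{0}, p ∈ StaysCardinal P ν) ∧ p ∈ StaysRegular κ P ∧
        p ∈ BoundingGt κ P ∧ p ∈ HasKKappaScale κ P := by
  have hreg := isRegular_of_pow hκ.le hpow
  have hclosed := Cond.directedClosed hreg
  refine ⟨Cond κ, inferInstance, Cond.nonempty_cond hreg, hclosed,
    Cond.chainCondition hκ.le hpow, fun p => ⟨fun ν => ?_, staysRegular hreg hclosed p,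
      boundingGt hreg hclosed p, ?_⟩⟩
  · rcases le_or_gt ν κ with h | h
    · exact staysCardinal_of_le hreg hclosed ν h p
    · exact Cond.staysCardinal_of_lt hκ.le hpow ν h p
  · refine mem_fex_of_mem Cond.sc ?_ ⟨Cond.isScale_sc hκ hpow p, Cond.isKKappa_sc hκ hpow p⟩
    refine down_fand (down_fand (down_fall fun _ => down_fand (down_IsFun _)
      (down_fall fun _ => down_fall fun _ => down_fall fun _ => down_fall fun _ =>
        down_fimp _ _)) (down_fand (down_fall fun _ => down_fall fun _ => down_fimp _ _)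
          (down_fall fun _ => down_fimp _ _))) (down_fex _)

end Pool.Agent.T2H97.KS
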